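import Mathlib
import Pool.Agent.H526.FC.P6

set_option autoImplicit false

/-! Tuples in arbitrary windows of length `L`: averages of one and two entries. -/

namespace Pool.Agent.H526.FD
open Finset
open Pool.Agent.H373R2.T7
open Pool.Agent.H526.FC
open Pool.Agent.E8helper16.SL (nu nu_nonneg nu_le FL Rough mid mem_mid prod_mono_one')

/-- the tuple as a family of shifts, with base points `a`, seen from `h` -/
def ca {f : ℕ} (a : Fin f → ℤ) (s : Fin f → ℕ) (h : ℤ) : Fin f → ℤ := fun k => (s k : ℤ) - a k - h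

open Classical in
/-- the tuples in `[1, L]` with distinct positions -/
noncomputable def Ta (f L : ℕ) (a : Fin f → ℤ) : Finset (Fin f → ℕ) :=
  (Fintype.piFinset fun _ : Fin f => Icc 1 L).filter (fun s => Function.Injective (fun k => (s k : ℤ) - a k))

lemma mem_Ta {f L : ℕ} {a : Fin f → ℤ} {s : Fin f → ℕ} : s ∈ Ta f L a ↔ (∀ k, 1 ≤ s k ∧ s k ≤ L) ∧
    Function.Injective (fun k => (s k : ℤ) - a k) := by
  classical
  unfold Ta
  rw [mem_filter, Fintype.mem_piFinset]
  simp only [mem_Icc]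

lemma Ta_sub {f L : ℕ} (a : Fin f → ℤ) : Ta f L a ⊆ Fintype.piFinset (fun _ : Fin f => Icc 1 L) := by
  classical
  unfold Ta
  exact filter_subset _ _

lemma card_Ta (f L : ℕ) (a : Fin f → ℤ) : ((Ta f L a).card : ℝ) ≤ (L : ℝ) ^ f := by
  classical
  have h : (Ta f L a).card ≤ L ^ f := by
    refine (card_le_card (Ta_sub a)).trans ?_
    rw [Fintype.card_piFinset, prod_const, card_univ, Fintype.card_fin, Nat.card_Icc, Nat.add_sub_cancel]
  exact_mod_cast h

/-- the sum over the tuples of a function of one entry -/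
lemma one_coord {f L : ℕ} (a : Fin f → ℤ) (i : Fin f) (g : ℕ → ℝ) (hg : ∀ x, 0 ≤ g x) :
    (∑ s ∈ Ta f L a, g (s i)) * (L : ℝ) ≤ (L : ℝ) ^ f * ∑ x ∈ Icc 1 L, g x := by
  classical
  have h1 : ∑ s ∈ Ta f L a, g (s i) ≤ ∑ s ∈ Fintype.piFinset (fun _ : Fin f => Icc 1 L), g (s i) :=
    sum_le_sum_of_subset_of_nonneg (Ta_sub a) (fun s _ _ => hg _)
  have hmaps : ∀ s ∈ Fintype.piFinset (fun _ : Fin f => Icc 1 L), s i ∈ Icc 1 L := by
    intro s hs
    rw [Fintype.mem_piFinset] at hs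
    exact hs i
  rw [← sum_fiberwise_of_maps_to hmaps] at h1
  have h2 : ∀ x ∈ Icc 1 L, (∑ s ∈ (Fintype.piFinset (fun _ : Fin f => Icc 1 L)) with s i = x, g (s i)) * (L : ℝ) ≤
      (L : ℝ) ^ f * g x := by
    intro x _
    have h3 : ∑ s ∈ (Fintype.piFinset (fun _ : Fin f => Icc 1 L)) with s i = x, g (s i) =
        (((Fintype.piFinset (fun _ : Fin f => Icc 1 L)).filter (fun s => s i = x)).card : ℝ) * g x := by
      rw [← nsmul_eq_mul, ← sum_const]
      apply sum_congr rfl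
      intro s hs
      rw [mem_filter] at hs
      rw [hs.2]
    rw [h3]
    have h4 : ((Fintype.piFinset (fun _ : Fin f => Icc 1 L)).filter (fun s => s i = x)).card * L ≤ L ^ f := by
      have h5 : (Fintype.piFinset (fun _ : Fin f => Icc 1 L)).filter (fun s => s i = x) ⊆
          Fintype.piFinset (fun k : Fin f => if k = i then {x} else Icc 1 L) := by
        intro s hs
        rw [mem_filter, Fintype.mem_piFinset] at hs
        rw [Fintype.mem_piFinset]
        intro k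
        by_cases q1 : k = i
        · rw [if_pos q1, mem_singleton, q1]; exact hs.2
        · rw [if_neg q1]; exact hs.1 k
      have h6 := card_le_card h5
      rw [Fintype.card_piFinset] at h6
      have h7 : (∏ k : Fin f, ((if k = i then ({x} : Finset ℕ) else Icc 1 L)).card) * L = L ^ f := by
        have e1 : L = (∏ k : Fin f, (if k = i then L else 1)) := by
          rw [prod_ite_eq' univ i (fun _ => L), if_pos (mem_univ _)]
        nth_rw 2 [e1]
        rw [← prod_mul_distrib]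
        have e2 : L ^ f = ∏ _k : Fin f, L := by rw [prod_const, card_univ, Fintype.card_fin]
        rw [e2]
        apply prod_congr rfl
        intro k _
        by_cases q1 : k = i
        · simp [q1]
        · simp [q1]
      calc _ ≤ (∏ k : Fin f, ((if k = i then ({x} : Finset ℕ) else Icc 1 L)).card) * L := Nat.mul_le_mul_right _ h6
        _ = L ^ f := h7
    have h8 : ((((Fintype.piFinset (fun _ : Fin f => Icc 1 L)).filter (fun s => s i = x)).card : ℕ) : ℝ) * (L : ℝ) ≤ (L : ℝ) ^ f := by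
      exact_mod_cast h4
    calc _ = ((((Fintype.piFinset (fun _ : Fin f => Icc 1 L)).filter (fun s => s i = x)).card : ℕ) : ℝ) * (L : ℝ) * g x := by ring
      _ ≤ _ := mul_le_mul_of_nonneg_right h8 (hg x)
  calc (∑ s ∈ Ta f L a, g (s i)) * (L : ℝ) ≤
        (∑ x ∈ Icc 1 L, ∑ s ∈ (Fintype.piFinset (fun _ : Fin f => Icc 1 L)) with s i = x, g (s i)) * (L : ℝ) :=
        mul_le_mul_of_nonneg_right h1 (Nat.cast_nonneg _)
    _ = ∑ x ∈ Icc 1 L, (∑ s ∈ (Fintype.piFinset (fun _ : Fin f => Icc 1 L)) with s i = x, g (s i)) * (L : ℝ) := by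
        rw [sum_mul]
    _ ≤ ∑ x ∈ Icc 1 L, (L : ℝ) ^ f * g x := sum_le_sum h2
    _ = _ := by rw [← mul_sum]

/-- the sum over the tuples of a function of two entries -/
lemma two_coord' {f L : ℕ} (a : Fin f → ℤ) {i j : Fin f} (hij : i ≠ j) (g : ℕ → ℕ → ℝ) (hg : ∀ x y, 0 ≤ g x y) :
    (∑ s ∈ Ta f L a, g (s i) (s j)) * (L : ℝ) ^ 2 ≤ (L : ℝ) ^ f * ∑ x ∈ Icc 1 L, ∑ y ∈ Icc 1 L, g x y := by
  classical
  have h1 : ∑ s ∈ Ta f L a, g (s i) (s j) ≤ ∑ s ∈ Fintype.piFinset (fun _ : Fin f => Icc 1 L), g (s i) (s j) :=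
    sum_le_sum_of_subset_of_nonneg (Ta_sub a) (fun s _ _ => hg _ _)
  have hmaps : ∀ s ∈ Fintype.piFinset (fun _ : Fin f => Icc 1 L), (s i, s j) ∈ Icc 1 L ×ˢ Icc 1 L := by
    intro s hs
    rw [Fintype.mem_piFinset] at hs
    exact mem_product.2 ⟨hs i, hs j⟩
  rw [← sum_fiberwise_of_maps_to hmaps] at h1
  have h2 : ∀ q ∈ Icc 1 L ×ˢ Icc 1 L, (∑ s ∈ (Fintype.piFinset (fun _ : Fin f => Icc 1 L)) with (s i, s j) = q, g (s i) (s j)) * (L : ℝ) ^ 2 ≤
      (L : ℝ) ^ f * g q.1 q.2 := by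
    rintro ⟨x, y⟩ _
    have h3 : ∑ s ∈ (Fintype.piFinset (fun _ : Fin f => Icc 1 L)) with (s i, s j) = (x, y), g (s i) (s j) =
        (((Fintype.piFinset (fun _ : Fin f => Icc 1 L)).filter (fun s => (s i, s j) = (x, y))).card : ℝ) * g x y := by
      rw [← nsmul_eq_mul, ← sum_const]
      apply sum_congr rfl
      intro s hs
      rw [mem_filter] at hs
      have := hs.2
      rw [Prod.mk.injEq] at this
      rw [this.1, this.2]
    rw [h3]
    have h4 : ((Fintype.piFinset (fun _ : Fin f => Icc 1 L)).filter (fun s => (s i, s j) = (x, y))).card * L ^ 2 ≤ L ^ f := by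
      have h5 : (Fintype.piFinset (fun _ : Fin f => Icc 1 L)).filter (fun s => (s i, s j) = (x, y)) ⊆
          Fintype.piFinset (fun k : Fin f => if k = i then {x} else if k = j then {y} else Icc 1 L) := by
        intro s hs
        rw [mem_filter, Fintype.mem_piFinset] at hs
        rw [Fintype.mem_piFinset]
        intro k
        have h6 := hs.2
        rw [Prod.mk.injEq] at h6
        by_cases q1 : k = i
        · rw [if_pos q1, mem_singleton, q1]; exact h6.1
        · rw [if_neg q1]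
          by_cases q2 : k = j
          · rw [if_pos q2, mem_singleton, q2]; exact h6.2
          · rw [if_neg q2]; exact hs.1 k
      have h6 := card_le_card h5
      rw [Fintype.card_piFinset] at h6
      have h7 : (∏ k : Fin f, ((if k = i then ({x} : Finset ℕ) else if k = j then {y} else Icc 1 L)).card) * L ^ 2 = L ^ f := by
        have e1 : L ^ 2 = (∏ k : Fin f, (if k = i then L else 1)) * ∏ k : Fin f, (if k = j then L else 1) := by
          rw [prod_ite_eq' univ i (fun _ => L), prod_ite_eq' univ j (fun _ => L), if_pos (mem_univ _), if_pos (mem_univ _), pow_two]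
        rw [e1, ← prod_mul_distrib, ← prod_mul_distrib]
        have e2 : L ^ f = ∏ _k : Fin f, L := by rw [prod_const, card_univ, Fintype.card_fin]
        rw [e2]
        apply prod_congr rfl
        intro k _
        by_cases q1 : k = i
        · have q2 : k ≠ j := fun h => hij (q1.symm.trans h)
          simp [q1, hij]
        · by_cases q2 : k = j
          · simp [q2, Ne.symm hij]
          · simp [q1, q2]
      calc _ ≤ (∏ k : Fin f, ((if k = i then ({x} : Finset ℕ) else if k = j then {y} else Icc 1 L)).card) * L ^ 2 :=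
            Nat.mul_le_mul_right _ h6
        _ = L ^ f := h7
    have h8 : ((((Fintype.piFinset (fun _ : Fin f => Icc 1 L)).filter (fun s => (s i, s j) = (x, y))).card : ℕ) : ℝ) * (L : ℝ) ^ 2 ≤ (L : ℝ) ^ f := by
      exact_mod_cast h4
    calc _ = ((((Fintype.piFinset (fun _ : Fin f => Icc 1 L)).filter (fun s => (s i, s j) = (x, y))).card : ℕ) : ℝ) * (L : ℝ) ^ 2 * g x y := by ring
      _ ≤ _ := mul_le_mul_of_nonneg_right h8 (hg x y)
  calc (∑ s ∈ Ta f L a, g (s i) (s j)) * (L : ℝ) ^ 2 ≤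
        (∑ q ∈ Icc 1 L ×ˢ Icc 1 L, ∑ s ∈ (Fintype.piFinset (fun _ : Fin f => Icc 1 L)) with (s i, s j) = q, g (s i) (s j)) * (L : ℝ) ^ 2 :=
        mul_le_mul_of_nonneg_right h1 (by positivity)
    _ = ∑ q ∈ Icc 1 L ×ˢ Icc 1 L, (∑ s ∈ (Fintype.piFinset (fun _ : Fin f => Icc 1 L)) with (s i, s j) = q, g (s i) (s j)) * (L : ℝ) ^ 2 := by
        rw [sum_mul]
    _ ≤ ∑ q ∈ Icc 1 L ×ˢ Icc 1 L, (L : ℝ) ^ f * g q.1 q.2 := sum_le_sum h2
    _ = _ := by rw [← mul_sum, sum_product]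

lemma df_ca {f : ℕ} (a : Fin f → ℤ) (s : Fin f → ℕ) (h : ℤ) (q : Fin f × Fin f) :
    df (ca a s h) q = if q.1 = q.2 then 1 else (s q.1 : ℤ) - ((s q.2 : ℤ) + (a q.1 - a q.2)) := by
  unfold df ca
  split_ifs
  · rfl
  · ring

/-- the average over the tuples of the excess of a difference -/
lemma avg_intra' {f w y L : ℕ} (a : Fin f → ℤ) (hw : 1 ≤ w) (hL : 1 ≤ L) {C : ℝ} (hC : 0 ≤ C) (hCw : C ≤ w) (q : Fin f × Fin f) (h : ℤ) :
    ∑ s ∈ Ta f L a, (AA w y C (df (ca a s h) q) - 1) ≤ (L : ℝ) ^ f * (2 * C / w + WW C y / L) := by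
  classical
  have hL0 : (0 : ℝ) < L := by exact_mod_cast hL
  have hW := one_le_WW y hC
  have hrhs : 0 ≤ (L : ℝ) ^ f * (2 * C / w + WW C y / L) := by positivity
  by_cases hq : q.1 = q.2
  · have : ∀ s ∈ Ta f L a, (AA w y C (df (ca a s h) q) - 1) = 0 := by
      intro s _
      rw [df_ca, if_pos hq, AA_one]
      ring
    rw [sum_congr rfl this, sum_const_zero]
    exact hrhs
  · have e : ∀ s ∈ Ta f L a, (AA w y C (df (ca a s h) q) - 1) =
        AA w y C (((s q.1 : ℕ) : ℤ) - ((s q.2 : ℤ) + (a q.1 - a q.2))) - 1 := by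
      intro s _
      rw [df_ca, if_neg hq]
    rw [sum_congr rfl e]
    have h1 := two_coord' a (L := L) hq (fun x y' => AA w y C ((x : ℤ) - ((y' : ℤ) + (a q.1 - a q.2))) - 1) (fun x y' => by
      have := one_le_AA w y hC ((x : ℤ) - ((y' : ℤ) + (a q.1 - a q.2)))
      linarith)
    have h2 : ∑ x ∈ Icc 1 L, ∑ y' ∈ Icc 1 L, (AA w y C ((x : ℤ) - ((y' : ℤ) + (a q.1 - a q.2))) - 1) ≤ L * (L * (2 * C / w) + WW C y) := by
      rw [sum_comm]
      have h3 : ∀ y' ∈ Icc 1 L, ∑ x ∈ Icc 1 L, (AA w y C ((x : ℤ) - ((y' : ℤ) + (a q.1 - a q.2))) - 1) ≤ L * (2 * C / w) + WW C y :=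
        fun y' _ => avg_diff (H := L) (y := y) hw hC hCw ((y' : ℤ) + (a q.1 - a q.2))
      refine (sum_le_sum h3).trans (le_of_eq ?_)
      rw [sum_const, Nat.card_Icc, Nat.add_sub_cancel, nsmul_eq_mul]
    have h3 := h1.trans (mul_le_mul_of_nonneg_left h2 (by positivity : (0 : ℝ) ≤ (L : ℝ) ^ f))
    have h4 : (L : ℝ) ^ f * (L * (L * (2 * C / w) + WW C y)) = ((L : ℝ) ^ f * (2 * C / w + WW C y / L)) * (L : ℝ) ^ 2 := by
      field_simp
    rw [h4] at h3
    exact le_of_mul_le_mul_right h3 (by positivity)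

/-- the average of the excess over the determinants, over an entry of the tuple -/
lemma avg_det' {w y L d d' : ℕ} (hw : 1 ≤ w) {C : ℝ} (hC : 0 ≤ C) (hCw : C ≤ w) (hd : d.Prime) (hd' : d'.Prime)
    (hdd : d ≠ d') (v t : ℤ) (hv : ¬ (d : ℤ) ∣ v) :
    ∑ x ∈ Icc 1 L, (AA w y C ((d : ℤ) * ((x : ℤ) - t) - d' * v) - 1) ≤ L * (2 * C / w) + WW C y := by
  classical
  have h := avg_form (H := L) hw hC hCw ((mid w y).filter (fun l => ¬ l ∣ d)) (fun l hl => by
      rw [mem_filter, mem_mid] at hl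
      exact ⟨hl.1.2.2, hl.1.1⟩) ((d : ℤ)) (-(d * t) - d' * v)
    (fun l hl h => by
      rw [mem_filter] at hl
      exact hl.2 (Int.natCast_dvd_natCast.1 h))
  have e : ∀ x ∈ Icc 1 L, (AA w y C ((d : ℤ) * ((x : ℤ) - t) - d' * v) - 1) =
      (∏ l ∈ ((mid w y).filter (fun l => ¬ l ∣ d)).filter (fun l : ℕ => (l : ℤ) ∣ (d : ℤ) * (x : ℤ) + (-(d * t) - d' * v)), (1 + C / (l : ℝ)) - 1) := by
    intro x _
    unfold AA
    have e2 : (d : ℤ) * (x : ℤ) + (-(d * t) - d' * v) = (d : ℤ) * ((x : ℤ) - t) - d' * v := by ring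
    rw [e2]
    congr 1
    apply prod_congr _ (fun _ _ => rfl)
    ext l
    simp only [mem_filter]
    constructor
    · rintro ⟨h1, h2⟩
      refine ⟨⟨h1, fun h3 => ?_⟩, h2⟩
      have hl := (mem_mid.1 h1).2.2
      have h4 : l = d := (Nat.prime_dvd_prime_iff_eq hl hd).1 h3
      rw [h4] at h2
      have h5 : (d : ℤ) ∣ d' * v := by
        have := (dvd_sub_right (Dvd.intro ((x : ℤ) - t) rfl : (d : ℤ) ∣ (d : ℤ) * ((x : ℤ) - t))).1 h2
        exact this
      rcases (Nat.prime_iff_prime_int.1 hd).dvd_or_dvd h5 with h6 | h6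
      · exact hdd ((Nat.prime_dvd_prime_iff_eq hd hd').1 (Int.natCast_dvd_natCast.1 h6))
      · exact hv h6
    · rintro ⟨⟨h1, _⟩, h2⟩
      exact ⟨h1, h2⟩
  rw [sum_congr rfl e]
  refine h.trans (add_le_add le_rfl ?_)
  unfold WW
  apply prod_mono_one' _ (fun l => one_le_fac hC l)
  intro l hl
  rw [mem_filter] at hl
  exact mem_pz.2 (mem_mid.1 hl.1).2

/-- the average over the tuples of the excess of a determinant -/
lemma avg_inter {f w y L d d' : ℕ} (a : Fin f → ℤ) (hw : 1 ≤ w) (hL : 1 ≤ L) {C : ℝ} (hC : 0 ≤ C) (hCw : C ≤ w) (hd : d.Prime) (hd' : d'.Prime)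
    (hdd : d ≠ d') (v : ℤ) (hv : ¬ (d : ℤ) ∣ v) (i : Fin f) (h : ℤ) :
    ∑ s ∈ Ta f L a, (AA w y C ((d : ℤ) * ca a s h i - d' * v) - 1) ≤ (L : ℝ) ^ f * (2 * C / w + WW C y / L) := by
  have hL0 : (0 : ℝ) < L := by exact_mod_cast hL
  have e : ∀ s ∈ Ta f L a, (AA w y C ((d : ℤ) * ca a s h i - d' * v) - 1) =
      AA w y C ((d : ℤ) * (((s i : ℕ) : ℤ) - (a i + h)) - d' * v) - 1 := by
    intro s _
    unfold ca
    congr 2
    ring
  rw [sum_congr rfl e]
  have h1 := one_coord a (L := L) i (fun x => AA w y C ((d : ℤ) * ((x : ℤ) - (a i + h)) - d' * v) - 1) (fun x => by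
    have := one_le_AA w y hC ((d : ℤ) * ((x : ℤ) - (a i + h)) - d' * v)
    linarith)
  have h2 := avg_det' (L := L) (y := y) hw hC hCw hd hd' hdd v (a i + h) hv
  have h3 := h1.trans (mul_le_mul_of_nonneg_left h2 (by positivity : (0 : ℝ) ≤ (L : ℝ) ^ f))
  have h4 : (L : ℝ) ^ f * (L * (2 * C / w) + WW C y) = ((L : ℝ) ^ f * (2 * C / w + WW C y / L)) * (L : ℝ) := by
    field_simp
  rw [h4] at h3
  exact le_of_mul_le_mul_right h3 hL0

end Pool.Agent.H526.FD
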