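import Mathlib
import Pool.Agent.H526.FD.A2

set_option autoImplicit false

/-! The sum of the covariances over the pairs with the same prime; tuples and shifts in windows of different lengths. -/

namespace Pool.Agent.H526.FD
open Finset
open Pool.Agent.H373R2.T7
open Pool.Agent.H526.FC
open Pool.Agent.E8helper16.SL (nu nu_nonneg nu_le FL Rough)

open Classical in
/-- the positions of the rough integers in a window -/
noncomputable def XA (z L : ℕ) (t n : ℤ) : Finset ℤ := (Icc (1 - t) (L - t)).filter (fun v => Rg z (n + v))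

lemma nu_tuple' (z L k : ℕ) (t n : ℤ) : ((Vz z) ^ k)⁻¹ * ((IT k (XA z L t n)).card : ℝ) = ∑ v ∈ IT k (Icc (1 - t) (L - t)), nu v z n := by
  classical
  have h1 : IT k (XA z L t n) = (IT k (Icc (1 - t) (L - t))).filter (fun v => Rough v z n) := by
    ext v
    rw [mem_filter, mem_IT, mem_IT, rough_Rg]
    unfold XA
    simp only [mem_filter]
    constructor
    · rintro ⟨h1, h2⟩
      exact ⟨⟨fun i => (h1 i).1, h2⟩, fun i => (h1 i).2⟩
    · rintro ⟨⟨h1, h2⟩, h3⟩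
      exact ⟨fun i => ⟨h1 i, h3 i⟩, h2⟩
  rw [h1, card_filter, Nat.cast_sum, mul_sum]
  apply sum_congr rfl
  intro v _
  unfold nu
  split_ifs <;> simp

/-- the tuples in a window of integers -/
lemma IT_Ta (k L : ℕ) (t : ℤ) (F : (Fin k → ℤ) → ℝ) :
    ∑ v ∈ IT k (Icc (1 - t) (L - t)), F v = ∑ s ∈ Ta k L (fun _ => t), F (ca (fun _ => t) s 0) := by
  have hca : ∀ (s : Fin k → ℕ) (i : Fin k), ca (fun _ => t) s 0 i = (s i : ℤ) - t - 0 := fun s i => rfl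
  apply sum_nbij' (fun v => fun i => (v i + t).toNat) (fun s => ca (fun _ => t) s 0)
  · intro v hv
    rw [mem_IT] at hv
    rw [mem_Ta]
    have h1 : ∀ i, (((v i + t).toNat : ℕ) : ℤ) = v i + t := by
      intro i
      have := mem_Icc.1 (hv.1 i)
      exact Int.toNat_of_nonneg (by omega)
    refine ⟨fun i => ?_, fun i j hij => ?_⟩
    · have := mem_Icc.1 (hv.1 i)
      have := h1 i
      omega
    · apply hv.2
      simp only at hij
      rw [h1 i, h1 j] at hij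
      linarith
  · intro s hs
    rw [mem_Ta] at hs
    rw [mem_IT]
    refine ⟨fun i => ?_, fun i j hij => ?_⟩
    · rw [hca, mem_Icc]
      have := hs.1 i
      omega
    · apply hs.2
      rw [hca, hca] at hij
      show (s i : ℤ) - t = (s j : ℤ) - t
      linarith
  · intro v hv
    rw [mem_IT] at hv
    funext i
    rw [hca]
    have := mem_Icc.1 (hv.1 i)
    have h1 : (((v i + t).toNat : ℕ) : ℤ) = v i + t := Int.toNat_of_nonneg (by omega)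
    rw [h1]
    ring
  · intro s hs
    funext i
    rw [hca]
    have : (s i : ℤ) - t - 0 + t = (s i : ℤ) := by ring
    rw [this, Int.toNat_natCast]
  · intro v hv
    rw [mem_IT] at hv
    congr 1
    funext i
    rw [hca]
    have := mem_Icc.1 (hv.1 i)
    have h1 : (((v i + t).toNat : ℕ) : ℤ) = v i + t := Int.toNat_of_nonneg (by omega)
    rw [h1]
    ring

lemma one_tuple' {f b x w z y K M p L : ℕ} (hf : 1 ≤ f) (hfw : 64 * f ^ 2 ≤ w) (hfw' : 16 * f + 1 ≤ w)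
    (hFL : FL (2 * f) b x z) (hwz : w ≤ z) (hy : 1 ≤ y) (hKy : 8 * f * K * (4 * f ^ 2) * w ≤ y)
    (hp : p ∈ pz z) (hLK : 2 * L ≤ 2 ^ K) (t : ℤ) (s : Fin (2 * f) → ℕ) (hs : s ∈ Ta (2 * f) L (fun _ => t)) :
    ∑ m ∈ Icc 1 M, nu (ca (fun _ => t) s 0) z (p * m) ≤
      2 * M * (((Vz w) ^ (2 * f))⁻¹ * (3 + 3 * EX (df (ca (fun _ => t) s 0)) (C5 f) w y)) +
      ((Vz z) ^ (4 * f))⁻¹ * √(x : ℝ) := by
  obtain ⟨v, hv⟩ : ∃ v, v = ca (fun _ : Fin (2 * f) => t) s 0 := ⟨_, rfl⟩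
  have hva : ∀ i, v i = (s i : ℤ) - t := by
    intro i
    rw [hv]
    unfold ca
    ring
  rw [← hv]
  have hVw := (Vz_pos w).le
  have hVz := (Vz_pos z).le
  have hC5 := (C5_pos f).le
  have hW := one_le_WW y hC5
  have hEX := EX_nonneg (df v) hC5 w y
  have hpp := (mem_pz.1 hp).2
  by_cases hd : ∃ k, (p : ℤ) ∣ v k
  · obtain ⟨k, hk⟩ := hd
    have : ∀ m ∈ Icc 1 M, nu v z (p * m) = 0 := fun m _ => nu_zero_of_dvd hp hk m
    rw [sum_congr rfl this, sum_const_zero]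
    positivity
  · push Not at hd
    have hs' := mem_Ta.1 hs
    have h1 := single_le v p (f := 2 * f) (x := x) (b := b) (w := w) (z := z) (by omega) (by
      have : 16 * (2 * f) ^ 2 = 64 * f ^ 2 := by ring
      omega) hFL hwz (nz_prime v hpp hd) M
    have h2 := GU_sub (df v) (C := 4 * ((2 * f : ℕ) : ℝ)) (z := z) (w := w) (y := y) (K := K) (d := p) (d' := 1) (by positivity)
      (by omega) hy (by
        have : ((16 * f + 1 : ℕ) : ℝ) ≤ w := by exact_mod_cast hfw'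
        push_cast at this ⊢
        linarith) (by
        rw [Fintype.card_prod, Fintype.card_fin]
        have : ((8 * f * K * (4 * f ^ 2) * w : ℕ) : ℝ) ≤ y := by exact_mod_cast hKy
        push_cast at this ⊢
        refine le_trans (le_of_eq ?_) this
        ring) (Or.inr hpp) (Or.inl rfl) (by
        intro q
        unfold df
        split_ifs with hq
        · exact ⟨one_ne_zero, by simpa using Nat.one_le_two_pow⟩
        · rw [hva, hva]
          refine ⟨fun h0 => hq (hs'.2 (by simp only; linarith)), ?_⟩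
          have a1 := hs'.1 q.1
          have a2 := hs'.1 q.2
          refine le_trans ?_ hLK
          omega)
    have e1 : (1 + 4 * ((2 * f : ℕ) : ℝ)) ^ (Fintype.card (Fin (2 * f) × Fin (2 * f))) = C5 f := by
      unfold C5
      rw [Fintype.card_prod, Fintype.card_fin]
      congr 1
      · push_cast
        ring
      · ring
    rw [e1] at h2
    have h4 : 2 * ((2 * (4 * ((2 * f : ℕ) : ℝ)) + 1) / w) ≤ 2 := by
      have hw0 : (0 : ℝ) < w := by exact_mod_cast (by omega : 0 < w)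
      have : (2 * (4 * ((2 * f : ℕ) : ℝ)) + 1) / w ≤ 1 := by
        rw [div_le_one hw0]
        have : ((16 * f + 1 : ℕ) : ℝ) ≤ w := by exact_mod_cast hfw'
        push_cast at this ⊢
        linarith
      linarith
    have h5 : GU (df v) (4 * ((2 * f : ℕ) : ℝ)) w z p 1 ≤ 3 + 3 * EX (df v) (C5 f) w y := by linarith
    have e3 : ((Vz z) ^ (2 * (2 * f)))⁻¹ = ((Vz z) ^ (4 * f))⁻¹ := by
      congr 2
      ring
    rw [e3] at h1
    refine h1.trans ?_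
    apply add_le_add _ le_rfl
    apply mul_le_mul_of_nonneg_left _ (by positivity)
    exact mul_le_mul_of_nonneg_left h5 (by positivity)

/-- the moment of the number of the rough integers near the multiples of `p` -/
lemma moment' {f b x w z y K L M p : ℕ} (hf : 1 ≤ f) (hfw : 64 * f ^ 2 ≤ w) (hfw' : 16 * f + 1 ≤ w)
    (hFL : FL (2 * f) b x z) (hwz : w ≤ z) (hy : 1 ≤ y) (hKy : 8 * f * K * (4 * f ^ 2) * w ≤ y) (hCw : C5 f ≤ w)
    (hW : WW (C5 f) y ≤ L) (hp : p ∈ pz z) (hL : 1 ≤ L) (hLK : 2 * L ≤ 2 ^ K) (t : ℤ) :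
    ∑ m ∈ Icc 1 M, ((Vz z)⁻¹ * ((XA z L t (p * m)).card : ℝ)) ^ (2 * f) ≤
      ((2 * f : ℕ) : ℝ) ^ (2 * f) * (M * ((Vz z) ^ (2 * f))⁻¹ + (L : ℝ) ^ (2 * f) *
        (2 * M * (((Vz w) ^ (2 * f))⁻¹ * (3 + 36 * (f : ℝ) ^ 2)) + ((Vz z) ^ (4 * f))⁻¹ * √(x : ℝ))) := by
  classical
  have hVz := (Vz_pos z).le
  have hVw := (Vz_pos w).le
  have hw1 : 1 ≤ w := by omega
  have hw0 : (0 : ℝ) < w := by exact_mod_cast hw1
  have hL0 : (0 : ℝ) < L := by exact_mod_cast hL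
  have h1 : ∀ m ∈ Icc 1 M, ((Vz z)⁻¹ * ((XA z L t (p * m)).card : ℝ)) ^ (2 * f) ≤
      ((2 * f : ℕ) : ℝ) ^ (2 * f) * (((Vz z) ^ (2 * f))⁻¹ + ∑ s ∈ Ta (2 * f) L (fun _ => t), nu (ca (fun _ => t) s 0) z (p * m)) := by
    intro m _
    rw [← IT_Ta (2 * f) L t (fun v => nu v z (p * m)), ← nu_tuple', mul_pow, inv_pow]
    have h2 := pow_le_IT (k := 2 * f) (by omega) (XA z L t (p * m))
    calc _ ≤ ((Vz z) ^ (2 * f))⁻¹ * (((2 * f : ℕ) : ℝ) ^ (2 * f) * (1 + (IT (2 * f) (XA z L t (p * m))).card)) :=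
          mul_le_mul_of_nonneg_left h2 (by positivity)
      _ = _ := by ring
  refine (sum_le_sum h1).trans ?_
  rw [← mul_sum]
  apply mul_le_mul_of_nonneg_left _ (by positivity)
  rw [sum_add_distrib, sum_const, Nat.card_Icc, Nat.add_sub_cancel, nsmul_eq_mul, sum_comm]
  apply add_le_add le_rfl
  have h2 : ∀ s ∈ Ta (2 * f) L (fun _ => t), ∑ m ∈ Icc 1 M, nu (ca (fun _ => t) s 0) z (p * m) ≤ _ :=
    fun s hs => one_tuple' (M := M) hf hfw hfw' hFL hwz hy hKy hp hLK t s hs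
  refine (sum_le_sum h2).trans ?_
  obtain ⟨V, hV⟩ : ∃ V, V = ((Vz w) ^ (2 * f))⁻¹ := ⟨_, rfl⟩
  obtain ⟨R, hR⟩ : ∃ R, R = ((Vz z) ^ (4 * f))⁻¹ * √(x : ℝ) := ⟨_, rfl⟩
  have hV0 : 0 ≤ V := by rw [hV]; positivity
  have hR0 : 0 ≤ R := by rw [hR]; positivity
  rw [← hV, ← hR]
  have hM0 : (0 : ℝ) ≤ M := Nat.cast_nonneg _
  have e : ∀ s ∈ Ta (2 * f) L (fun _ => t), 2 * (M : ℝ) * (V * (3 + 3 * EX (df (ca (fun _ => t) s 0)) (C5 f) w y)) + R =
      (2 * M * (V * 3) + R) + (2 * M * (V * 3)) * EX (df (ca (fun _ => t) s 0)) (C5 f) w y := by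
    intro s _
    ring
  rw [sum_congr rfl e, sum_add_distrib, sum_const, nsmul_eq_mul, ← mul_sum]
  have h3 : ∑ s ∈ Ta (2 * f) L (fun _ => t), EX (df (ca (fun _ => t) s 0)) (C5 f) w y ≤ 4 * (f : ℝ) ^ 2 * ((L : ℝ) ^ (2 * f) * 3) := by
    unfold EX
    rw [sum_comm]
    have h4 : ∀ q ∈ (univ : Finset (Fin (2 * f) × Fin (2 * f))), ∑ s ∈ Ta (2 * f) L (fun _ => t),
        (AA w y (C5 f) (df (ca (fun _ => t) s 0) q) - 1) ≤ (L : ℝ) ^ (2 * f) * 3 := by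
      intro q _
      refine (avg_intra' (y := y) (fun _ => t) hw1 hL (C5_pos f).le hCw q 0).trans ?_
      apply mul_le_mul_of_nonneg_left _ (by positivity)
      have a1 : 2 * C5 f / w ≤ 2 := by
        rw [div_le_iff₀ hw0]
        linarith
      have a2 : WW (C5 f) y / L ≤ 1 := by
        rw [div_le_one hL0]
        exact hW
      linarith
    refine (sum_le_sum h4).trans (le_of_eq ?_)
    rw [sum_const, card_univ, Fintype.card_prod, Fintype.card_fin, nsmul_eq_mul]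
    push_cast
    ring
  have hcard := card_Ta (2 * f) L (fun _ => t)
  have h5 := mul_le_mul_of_nonneg_right hcard (by positivity : (0 : ℝ) ≤ 2 * M * (V * 3) + R)
  have h6 := mul_le_mul_of_nonneg_left h3 (by positivity : (0 : ℝ) ≤ 2 * M * (V * 3))
  refine (add_le_add h5 h6).trans (le_of_eq ?_)
  ring

lemma prod_sq_le {f : ℕ} (hf : 1 ≤ f) (x : Fin f → ℝ) (hx : ∀ i, 0 ≤ x i) : (∏ i, x i) ^ 2 ≤ ∑ i, x i ^ (2 * f) := by
  have : Nonempty (Fin f) := ⟨⟨0, by omega⟩⟩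
  obtain ⟨j, _, hj⟩ := exists_max_image univ x univ_nonempty
  have h1 : ∏ i, x i ≤ x j ^ f := by
    calc ∏ i, x i ≤ ∏ _i : Fin f, x j := prod_le_prod (fun i _ => hx i) (fun i hi => hj i hi)
      _ = x j ^ f := by rw [prod_const, card_univ, Fintype.card_fin]
  calc (∏ i, x i) ^ 2 ≤ (x j ^ f) ^ 2 := pow_le_pow_left₀ (prod_nonneg fun i _ => hx i) h1 2
    _ = x j ^ (2 * f) := by rw [← pow_mul, mul_comm]
    _ ≤ _ := single_le_sum (f := fun i => x i ^ (2 * f)) (fun i _ => pow_nonneg (hx i) _) (mem_univ j)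

open Classical in
/-- the admitted pairs with the prime `p` -/
noncomputable def KB (f p L H : ℕ) (a : Fin f → ℤ) : Finset ((Fin f → ℕ) × ℕ) :=
  (Ta f L a ×ˢ Icc 1 H).filter (fun τ => ∀ k, ¬ (p : ℤ) ∣ ca a τ.1 τ.2 k)

lemma card_KB (f p L H : ℕ) (a : Fin f → ℤ) : ((KB f p L H a).card : ℝ) ≤ H * (L : ℝ) ^ f := by
  classical
  have h1 : (KB f p L H a).card ≤ (Ta f L a).card * H := by
    unfold KB
    refine (card_filter_le _ _).trans ?_
    rw [card_product, Nat.card_Icc, Nat.add_sub_cancel]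
  have h2 := card_Ta f L a
  calc ((KB f p L H a).card : ℝ) ≤ ((Ta f L a).card : ℝ) * H := by exact_mod_cast h1
    _ ≤ (L : ℝ) ^ f * H := mul_le_mul_of_nonneg_right h2 (Nat.cast_nonneg _)
    _ = _ := by ring

/-- the sum over the tuples in terms of the numbers of the rough integers -/
lemma sum_nu_KB {f : ℕ} (hf : 1 ≤ f) (p L H z : ℕ) (a : Fin f → ℤ) (n : ℤ) :
    (∑ τ ∈ KB f p L H a, nu (ca a τ.1 τ.2) z n) ^ 2 ≤
      H * ∑ h ∈ Icc 1 H, ∑ i, ((Vz z)⁻¹ * ((XA z L (a i + (h : ℤ)) n).card : ℝ)) ^ (2 * f) := by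
  classical
  have hVz := (Vz_pos z).le
  have h0 : 0 ≤ ∑ τ ∈ KB f p L H a, nu (ca a τ.1 τ.2) z n := sum_nonneg fun τ _ => nu_nonneg _ _ _
  have h1 : ∑ τ ∈ KB f p L H a, nu (ca a τ.1 τ.2) z n ≤ ∑ h ∈ Icc 1 H, ∑ s ∈ Ta f L a, nu (ca a s (h : ℤ)) z n := by
    rw [sum_comm, ← sum_product']
    apply sum_le_sum_of_subset_of_nonneg
    · unfold KB
      exact filter_subset _ _
    · intro τ _ _
      exact nu_nonneg _ _ _
  have h2 : ∀ h ∈ Icc 1 H, (∑ s ∈ Ta f L a, nu (ca a s (h : ℤ)) z n) ^ 2 ≤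
      ∑ i, ((Vz z)⁻¹ * ((XA z L (a i + (h : ℤ)) n).card : ℝ)) ^ (2 * f) := by
    intro h hh
    have e : ∑ s ∈ Ta f L a, nu (ca a s (h : ℤ)) z n = (((Ta f L a).filter (fun s => Rough (ca a s (h : ℤ)) z n)).card : ℝ) * ((Vz z) ^ f)⁻¹ := by
      rw [← nsmul_eq_mul, ← sum_const, sum_filter]
      apply sum_congr rfl
      intro s _
      unfold nu
      split_ifs <;> rfl
    have h3 : ((Ta f L a).filter (fun s => Rough (ca a s (h : ℤ)) z n)).card ≤ ∏ i, (XA z L (a i + (h : ℤ)) n).card := by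
      have h4 : (Fintype.piFinset (fun i : Fin f => XA z L (a i + (h : ℤ)) n)).card = ∏ i, (XA z L (a i + (h : ℤ)) n).card := by
        rw [Fintype.card_piFinset]
      rw [← h4]
      apply card_le_card_of_injOn (fun s => ca a s (h : ℤ))
      · intro s hs
        rw [mem_coe, mem_filter, mem_Ta] at hs
        rw [mem_coe, Fintype.mem_piFinset]
        intro k
        unfold XA
        rw [mem_filter, mem_Icc]
        have h5 := hs.1.1 k
        refine ⟨?_, (rough_Rg _ _ _).1 hs.2 k⟩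
        have e5 : ca a s (h : ℤ) k = (s k : ℤ) - a k - h := rfl
        show 1 - (a k + (h : ℤ)) ≤ ca a s (h : ℤ) k ∧ ca a s (h : ℤ) k ≤ L - (a k + (h : ℤ))
        rw [e5]
        constructor <;> omega
      · intro s _ s' _ h5
        funext k
        have h6 : ca a s (h : ℤ) k = ca a s' (h : ℤ) k := congrFun h5 k
        have e5 : ca a s (h : ℤ) k = (s k : ℤ) - a k - h := rfl
        have e6 : ca a s' (h : ℤ) k = (s' k : ℤ) - a k - h := rfl
        rw [e5, e6] at h6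
        omega
    have h4 : ∑ s ∈ Ta f L a, nu (ca a s (h : ℤ)) z n ≤ ∏ i, ((Vz z)⁻¹ * ((XA z L (a i + (h : ℤ)) n).card : ℝ)) := by
      rw [e, prod_mul_distrib, prod_const, card_univ, Fintype.card_fin, inv_pow, mul_comm]
      apply mul_le_mul_of_nonneg_left _ (by positivity)
      exact_mod_cast h3
    refine (pow_le_pow_left₀ (sum_nonneg fun s _ => nu_nonneg _ _ _) h4 2).trans ?_
    exact prod_sq_le hf _ (fun i => by positivity)
  calc (∑ τ ∈ KB f p L H a, nu (ca a τ.1 τ.2) z n) ^ 2 ≤ (∑ h ∈ Icc 1 H, ∑ s ∈ Ta f L a, nu (ca a s (h : ℤ)) z n) ^ 2 :=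
        pow_le_pow_left₀ h0 h1 2
    _ ≤ ((Icc 1 H).card : ℝ) * ∑ h ∈ Icc 1 H, (∑ s ∈ Ta f L a, nu (ca a s (h : ℤ)) z n) ^ 2 := sq_sum_le_card_mul_sum_sq
    _ ≤ _ := by
        rw [Nat.card_Icc, Nat.add_sub_cancel]
        exact mul_le_mul_of_nonneg_left (sum_le_sum h2) (Nat.cast_nonneg _)

open Classical in
/-- the sum of the covariances over the pairs with the same prime -/
theorem diag' {f b x w z y K L H M : ℕ} (a : Fin f → ℤ) (hf : 1 ≤ f) (hfw : 64 * f ^ 2 ≤ w) (hfw' : 16 * f + 1 ≤ w)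
    (hFL : FL (2 * f) b x z) (hwz : w ≤ z) (hy : 1 ≤ y) (hKy : 8 * f * K * (4 * f ^ 2) * w ≤ y) (hCw : C5 f ≤ w)
    (hW : WW (C5 f) y ≤ L)
    (P : Finset ℕ) (hP : ∀ p ∈ P, p ∈ pz z) (hL : 1 ≤ L) (hLK : 2 * L ≤ 2 ^ K) :
    ∑ κ ∈ KA f P L H a, ∑ κ' ∈ (KA f P L H a).filter (fun κ' => κ'.2.1 = κ.2.1), |CA a κ κ' M w z| ≤
      P.card * (2 * (H : ℝ) ^ 2 * (f * (((2 * f : ℕ) : ℝ) ^ (2 * f) * (M * ((Vz z) ^ (2 * f))⁻¹ + (L : ℝ) ^ (2 * f) *
        (2 * M * (((Vz w) ^ (2 * f))⁻¹ * (3 + 36 * (f : ℝ) ^ 2)) + ((Vz z) ^ (4 * f))⁻¹ * √(x : ℝ))))) +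
        2 * M * ((H * (L : ℝ) ^ f) ^ 2 * ((Vz w) ^ (2 * f))⁻¹)) := by
  have hVw := (Vz_pos w).le
  -- the sum as a sum over the primes
  have h1 : ∑ κ ∈ KA f P L H a, ∑ κ' ∈ (KA f P L H a).filter (fun κ' => κ'.2.1 = κ.2.1), |CA a κ κ' M w z| =
      ∑ p ∈ P, ∑ τ ∈ KB f p L H a, ∑ τ' ∈ KB f p L H a, |Cov (ca a τ.1 τ.2) (ca a τ'.1 τ'.2) p p M w z| := by
    have a1 : ∀ g : (Fin f → ℕ) × (ℕ × ℕ) → ℝ, ∑ κ ∈ KA f P L H a, g κ = ∑ p ∈ P, ∑ τ ∈ KB f p L H a, g (τ.1, (p, τ.2)) := by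
      intro g
      rw [sum_sigma']
      apply sum_bij' (fun κ _ => (⟨κ.2.1, (κ.1, κ.2.2)⟩ : (_ : ℕ) × ((Fin f → ℕ) × ℕ))) (fun σ _ => (σ.2.1, (σ.1, σ.2.2)))
      · rintro ⟨s, p, h⟩ hκ
        rw [mem_KA] at hκ
        rw [mem_sigma]
        unfold KB
        rw [mem_filter, mem_product]
        exact ⟨hκ.1.2.1, ⟨hκ.1.1, hκ.1.2.2⟩, hκ.2⟩
      · rintro ⟨p, s, h⟩ hσ
        rw [mem_sigma] at hσ
        unfold KB at hσ
        rw [mem_filter, mem_product] at hσ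
        rw [mem_KA]
        exact ⟨⟨hσ.2.1.1, hσ.1, hσ.2.1.2⟩, hσ.2.2⟩
      · rintro ⟨s, p, h⟩ _
        rfl
      · rintro ⟨p, s, h⟩ _
        rfl
      · rintro ⟨s, p, h⟩ _
        rfl
    rw [a1]
    apply sum_congr rfl
    intro p hp
    apply sum_congr rfl
    intro τ _
    rw [sum_filter, a1 (fun κ' => if κ'.2.1 = p then |CA a (τ.1, (p, τ.2)) κ' M w z| else 0)]
    rw [← sum_subset (s₁ := {p}) (by rw [singleton_subset_iff]; exact hp)]
    · rw [sum_singleton]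
      apply sum_congr rfl
      intro τ' _
      simp only [if_true]
      rfl
    · intro p' _ hp'
      rw [mem_singleton] at hp'
      apply sum_eq_zero
      intro τ' _
      simp only [if_neg hp']
  rw [h1, ← nsmul_eq_mul, ← sum_const]
  apply sum_le_sum
  intro p hp
  obtain ⟨V, hV⟩ : ∃ V, V = ((Vz w) ^ f)⁻¹ := ⟨_, rfl⟩
  have hV0 : 0 ≤ V := by rw [hV]; positivity
  have hV2 : ((Vz w) ^ (2 * f))⁻¹ = V ^ 2 := by rw [hV, mul_comm 2 f, pow_mul, inv_pow]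
  have h2 : ∀ τ ∈ KB f p L H a, ∀ τ' ∈ KB f p L H a, |Cov (ca a τ.1 τ.2) (ca a τ'.1 τ'.2) p p M w z| ≤
      ∑ m ∈ Icc 1 M, (nu (ca a τ.1 τ.2) z (p * m) + V) * (nu (ca a τ'.1 τ'.2) z (p * m) + V) := by
    intro τ _ τ' _
    unfold Cov
    refine (abs_sum_le_sum_abs _ _).trans (sum_le_sum fun m _ => ?_)
    rw [abs_mul]
    have q : ∀ u : Fin f → ℤ, |nu u z (p * m) - nu u w (p * m)| ≤ nu u z (p * m) + V := by
      intro u
      have q1 := nu_nonneg u z (p * m)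
      have q2 := nu_nonneg u w (p * m)
      have q3 := nu_le u w (p * m)
      rw [← hV] at q3
      rw [abs_le]
      constructor <;> linarith
    exact mul_le_mul (q _) (q _) (abs_nonneg _) (add_nonneg (nu_nonneg _ _ _) hV0)
  have h3 : ∑ τ ∈ KB f p L H a, ∑ τ' ∈ KB f p L H a, |Cov (ca a τ.1 τ.2) (ca a τ'.1 τ'.2) p p M w z| ≤
      ∑ m ∈ Icc 1 M, (∑ τ ∈ KB f p L H a, (nu (ca a τ.1 τ.2) z (p * m) + V)) ^ 2 := by
    refine (sum_le_sum fun τ hτ => sum_le_sum fun τ' hτ' => h2 τ hτ τ' hτ').trans (le_of_eq ?_)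
    have a2 : ∀ m ∈ Icc 1 M, (∑ τ ∈ KB f p L H a, (nu (ca a τ.1 τ.2) z ((p : ℤ) * (m : ℤ)) + V)) ^ 2 =
        ∑ τ ∈ KB f p L H a, ∑ τ' ∈ KB f p L H a, (nu (ca a τ.1 τ.2) z (p * m) + V) * (nu (ca a τ'.1 τ'.2) z (p * m) + V) := by
      intro m _
      rw [pow_two, sum_mul_sum]
    rw [sum_congr rfl a2]
    symm
    rw [sum_comm]
    apply sum_congr rfl
    intro τ _
    rw [sum_comm]
  refine h3.trans ?_
  have hcard := card_KB f p L H a
  have h4 : ∀ m ∈ Icc 1 M, (∑ τ ∈ KB f p L H a, (nu (ca a τ.1 τ.2) z ((p : ℤ) * (m : ℤ)) + V)) ^ 2 ≤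
      2 * (H * ∑ h ∈ Icc 1 H, ∑ i, ((Vz z)⁻¹ * ((XA z L (a i + (h : ℤ)) (p * m)).card : ℝ)) ^ (2 * f)) +
        2 * ((H * (L : ℝ) ^ f) ^ 2 * V ^ 2) := by
    intro m _
    rw [sum_add_distrib, sum_const, nsmul_eq_mul]
    have h5 := sum_nu_KB hf p L H z a (p * m)
    have h6 : 0 ≤ ∑ τ ∈ KB f p L H a, nu (ca a τ.1 τ.2) z ((p : ℤ) * (m : ℤ)) := sum_nonneg fun τ _ => nu_nonneg _ _ _
    obtain ⟨S, hS⟩ : ∃ S, S = ∑ τ ∈ KB f p L H a, nu (ca a τ.1 τ.2) z ((p : ℤ) * (m : ℤ)) := ⟨_, rfl⟩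
    rw [← hS] at h5 h6 ⊢
    have h8 : (((KB f p L H a).card : ℝ) * V) ^ 2 ≤ ((H * (L : ℝ) ^ f) * V) ^ 2 :=
      pow_le_pow_left₀ (by positivity) (mul_le_mul_of_nonneg_right hcard hV0) 2
    rw [mul_pow (H * (L : ℝ) ^ f) V 2] at h8
    nlinarith [sq_nonneg (S - ((KB f p L H a).card : ℝ) * V)]
  refine (sum_le_sum h4).trans ?_
  rw [sum_add_distrib, ← mul_sum, ← mul_sum, sum_const, Nat.card_Icc, Nat.add_sub_cancel, nsmul_eq_mul, hV2]
  obtain ⟨MB, hMB⟩ : ∃ MB, MB = ((2 * f : ℕ) : ℝ) ^ (2 * f) * (M * ((Vz z) ^ (2 * f))⁻¹ + (L : ℝ) ^ (2 * f) *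
        (2 * M * (V ^ 2 * (3 + 36 * (f : ℝ) ^ 2)) + ((Vz z) ^ (4 * f))⁻¹ * √(x : ℝ))) := ⟨_, rfl⟩
  rw [← hMB]
  have h5 : ∑ m ∈ Icc 1 M, ∑ h ∈ Icc 1 H, ∑ i, ((Vz z)⁻¹ * ((XA z L (a i + (h : ℤ)) (p * m)).card : ℝ)) ^ (2 * f) ≤ H * (f * MB) := by
    rw [sum_comm]
    have h6 : ∀ h ∈ Icc 1 H, ∑ m ∈ Icc 1 M, ∑ i, ((Vz z)⁻¹ * ((XA z L (a i + (h : ℤ)) (p * m)).card : ℝ)) ^ (2 * f) ≤ f * MB := by
      intro h _
      rw [sum_comm]
      have h7 : ∀ i ∈ (univ : Finset (Fin f)), ∑ m ∈ Icc 1 M, ((Vz z)⁻¹ * ((XA z L (a i + (h : ℤ)) (p * m)).card : ℝ)) ^ (2 * f) ≤ MB := by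
        intro i _
        have := moment' (M := M) hf hfw hfw' hFL hwz hy hKy hCw hW (hP p hp) hL hLK (a i + (h : ℤ))
        rw [hV2, ← hMB] at this
        exact this
      refine (sum_le_sum h7).trans (le_of_eq ?_)
      rw [sum_const, card_univ, Fintype.card_fin, nsmul_eq_mul]
    refine (sum_le_sum h6).trans (le_of_eq ?_)
    rw [sum_const, Nat.card_Icc, Nat.add_sub_cancel, nsmul_eq_mul]
  have h6 := mul_le_mul_of_nonneg_left h5 (by positivity : (0 : ℝ) ≤ 2 * (H : ℝ))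
  have e : 2 * (H : ℝ) * (H * (f * MB)) = 2 * (H : ℝ) ^ 2 * (f * MB) := by ring
  rw [e] at h6
  linarith

end Pool.Agent.H526.FD
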