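import Mathlib
import Pool.Agent.H526.FD.A3

set_option autoImplicit false

/-! The mean square of the sums over the multiples of the primes of a block, summed over the tuples. -/

namespace Pool.Agent.H526.FD
open Finset
open Pool.Agent.H373R2.T7 (Vz Vz_pos pz mem_pz)
open Pool.Agent.H526.FC
open Pool.Agent.E8helper16.SL (nu nu_nonneg nu_le lz lM lM_conj lz_norm GM GM_eq U_eq ct ct_norm noise_le)

lemma nu_ca {f : ℕ} (a : Fin f → ℤ) (s : Fin f → ℕ) (z : ℕ) (n h : ℤ) : nu (ca a s 0) z (n - h) = nu (ca a s h) z n := by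
  have e : (fun i => ca a s 0 i - h) = ca a s h := by
    funext i
    unfold ca
    ring
  rw [nu_shift, e]

/-- the mean square over the block -/
theorem U_bound' {f : ℕ} (a : Fin f → ℤ) (c : (Fin f → ℕ) → ℕ → ℂ) (hc : ∀ s h, ‖c s h‖ ≤ 1) {w z L H J M : ℕ} (P : Finset ℕ) (hP : ∀ p ∈ P, p ∈ pz z)
    (hJ : ∀ p ∈ P, H ≤ p * J) (ε₁ B : ℝ) (hε₁ : 0 ≤ ε₁)
    (hmrt : ∀ g : ℕ → ℂ, (∀ n, ‖g n‖ ≤ 1) → ∑ j ∈ Ioo (-(J : ℤ)) J, ‖∑ m ∈ Icc 1 M, g m * lM M (m + j)‖ ≤ ε₁ * J * M)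
    (hB : ∑ κ ∈ KA f P L H a, ∑ κ' ∈ KA f P L H a, |CA a κ κ' M w z| ≤ B) :
    ∑ s ∈ Ta f L a, ∑ p ∈ P, ∑ n ∈ Icc (-(H : ℤ)) (p * M), nu (ca a s 0) z n * ‖GM (c s) H p M n‖ ^ 2 ≤
      2 * J * √(M * B) + TA f P L H * (((Vz w) ^ f)⁻¹ * (ε₁ * J * M)) := by
  classical
  obtain ⟨D, hDdef⟩ : ∃ D : (Fin f → ℕ) × (ℕ × ℕ) → ℤ → ℂ, D = fun κ j => c κ.1 κ.2.2 *
    (starRingEnd ℂ) (ct (c κ.1) H (κ.2.2 + κ.2.1 * j)) := ⟨_, rfl⟩
  have hD : ∀ κ j, ‖D κ j‖ ≤ 1 := by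
    intro κ j
    rw [hDdef]
    simp only
    rw [norm_mul, RCLike.norm_conj]
    exact mul_le_one₀ (hc _ _) (norm_nonneg _) (ct_norm (hc _) _ _)
  -- the identity
  have h1 : ((∑ s ∈ Ta f L a, ∑ p ∈ P, ∑ n ∈ Icc (-(H : ℤ)) (p * M), nu (ca a s 0) z n * ‖GM (c s) H p M n‖ ^ 2 : ℝ) : ℂ) =
      ∑ κ ∈ KA f P L H a, ∑ m ∈ Icc 1 M, ∑ j ∈ Ioo (-(J : ℤ)) J,
        (nu (ca a κ.1 κ.2.2) z (κ.2.1 * m) : ℂ) * (D κ j * (lz m * lM M (m + j))) := by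
    rw [Complex.ofReal_sum]
    have h2 : ∀ s ∈ Ta f L a, ((∑ p ∈ P, ∑ n ∈ Icc (-(H : ℤ)) (p * M), nu (ca a s 0) z n * ‖GM (c s) H p M n‖ ^ 2 : ℝ) : ℂ) =
        ∑ p ∈ P, ∑ h ∈ Icc 1 H, ∑ m ∈ Icc 1 M, ∑ j ∈ Ioo (-(J : ℤ)) J,
          (nu (ca a s h) z (p * m) : ℂ) * (D (s, (p, h)) j * (lz m * lM M (m + j))) := by
      intro s _
      rw [Complex.ofReal_sum]
      apply sum_congr rfl
      intro p hp
      have hp1 : 1 ≤ p := (mem_pz.1 (hP p hp)).2.one_le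
      rw [U_eq (c s) H p M hp1]
      apply sum_congr rfl
      intro h hh
      apply sum_congr rfl
      intro m _
      rw [GM_eq (c s) H p M J hp1 (hJ p hp) h hh m, map_sum, mul_sum, mul_sum]
      apply sum_congr rfl
      intro j _
      rw [map_mul, lM_conj, hDdef, nu_ca]
      simp only
      ring
    rw [sum_congr rfl h2]
    have h3 : ∑ s ∈ Ta f L a, ∑ p ∈ P, ∑ h ∈ Icc 1 H, ∑ m ∈ Icc 1 M, ∑ j ∈ Ioo (-(J : ℤ)) J,
          (nu (ca a s h) z (p * m) : ℂ) * (D (s, (p, h)) j * (lz m * lM M (m + j))) =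
        ∑ κ ∈ Ta f L a ×ˢ (P ×ˢ Icc 1 H), ∑ m ∈ Icc 1 M, ∑ j ∈ Ioo (-(J : ℤ)) J,
          (nu (ca a κ.1 κ.2.2) z (κ.2.1 * m) : ℂ) * (D κ j * (lz m * lM M (m + j))) := by
      rw [sum_product]
      apply sum_congr rfl
      intro s _
      rw [sum_product]
    rw [h3]
    unfold KA
    rw [sum_filter]
    apply sum_congr rfl
    rintro ⟨s, p, h⟩ hph
    rw [mem_product, mem_product] at hph
    simp only
    split_ifs with hk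
    · rfl
    · push Not at hk
      obtain ⟨k, hk⟩ := hk
      apply sum_eq_zero
      intro m _
      apply sum_eq_zero
      intro j _
      have h5 : nu (ca a s (h : ℤ)) z ((p : ℤ) * (m : ℤ)) = 0 := nu_zero_of_dvd (u := ca a s (h : ℤ)) (k := k) (hP p hph.2.1) hk m
      rw [h5]
      simp
  have h0 : (0 : ℝ) ≤ ∑ s ∈ Ta f L a, ∑ p ∈ P, ∑ n ∈ Icc (-(H : ℤ)) (p * M), nu (ca a s 0) z n * ‖GM (c s) H p M n‖ ^ 2 :=
    sum_nonneg fun s _ => sum_nonneg fun p _ => sum_nonneg fun n _ => mul_nonneg (nu_nonneg _ z n) (by positivity)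
  have h4 : ‖((∑ s ∈ Ta f L a, ∑ p ∈ P, ∑ n ∈ Icc (-(H : ℤ)) (p * M), nu (ca a s 0) z n * ‖GM (c s) H p M n‖ ^ 2 : ℝ) : ℂ)‖ =
      ∑ s ∈ Ta f L a, ∑ p ∈ P, ∑ n ∈ Icc (-(H : ℤ)) (p * M), nu (ca a s 0) z n * ‖GM (c s) H p M n‖ ^ 2 := by
    rw [Complex.norm_real, Real.norm_eq_abs, abs_of_nonneg h0]
  rw [← h4, h1]
  -- the decomposition
  have h5 : ∑ κ ∈ KA f P L H a, ∑ m ∈ Icc 1 M, ∑ j ∈ Ioo (-(J : ℤ)) J,
        (nu (ca a κ.1 κ.2.2) z (κ.2.1 * m) : ℂ) * (D κ j * (lz m * lM M (m + j))) =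
      ∑ κ ∈ KA f P L H a, ∑ m ∈ Icc 1 M, ∑ j ∈ Ioo (-(J : ℤ)) J,
        ((nu (ca a κ.1 κ.2.2) z (κ.2.1 * m) - nu (ca a κ.1 κ.2.2) w (κ.2.1 * m) : ℝ) : ℂ) * (D κ j * (lz m * lM M (m + j))) +
      ∑ κ ∈ KA f P L H a, ∑ m ∈ Icc 1 M, ∑ j ∈ Ioo (-(J : ℤ)) J,
        (nu (ca a κ.1 κ.2.2) w (κ.2.1 * m) : ℂ) * (D κ j * (lz m * lM M (m + j))) := by
    rw [← sum_add_distrib]
    apply sum_congr rfl
    intro κ _
    rw [← sum_add_distrib]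
    apply sum_congr rfl
    intro m _
    rw [← sum_add_distrib]
    apply sum_congr rfl
    intro j _
    push_cast
    ring
  rw [h5]
  refine (norm_add_le _ _).trans (add_le_add ?_ ?_)
  · exact noise_le (KA f P L H a) (fun κ m => nu (ca a κ.1 κ.2.2) z (κ.2.1 * m) - nu (ca a κ.1 κ.2.2) w (κ.2.1 * m)) D hD M J B hB
  · have hV : 0 < (Vz w) ^ f := pow_pos (Vz_pos w) f
    have h6 : ∀ κ ∈ KA f P L H a, ‖∑ m ∈ Icc 1 M, ∑ j ∈ Ioo (-(J : ℤ)) J,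
        (nu (ca a κ.1 κ.2.2) w (κ.2.1 * m) : ℂ) * (D κ j * (lz m * lM M (m + j)))‖ ≤ ((Vz w) ^ f)⁻¹ * (ε₁ * J * M) := by
      intro κ _
      rw [sum_comm]
      have h7 : ∀ j ∈ Ioo (-(J : ℤ)) J, ∑ m ∈ Icc 1 M, (nu (ca a κ.1 κ.2.2) w (κ.2.1 * m) : ℂ) * (D κ j * (lz m * lM M (m + j))) =
          ((((Vz w) ^ f)⁻¹ : ℝ) : ℂ) * (D κ j * ∑ m ∈ Icc 1 M, (((Vz w) ^ f * nu (ca a κ.1 κ.2.2) w (κ.2.1 * m) : ℝ) : ℂ) * lz m * lM M (m + j)) := by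
        intro j _
        rw [mul_sum, mul_sum]
        apply sum_congr rfl
        intro m _
        have e : ((((Vz w) ^ f)⁻¹ : ℝ) : ℂ) * (((Vz w) ^ f : ℝ) : ℂ) = 1 := by
          rw [← Complex.ofReal_mul, inv_mul_cancel₀ hV.ne', Complex.ofReal_one]
        rw [Complex.ofReal_mul]
        calc _ = 1 * ((nu (ca a κ.1 κ.2.2) w (κ.2.1 * m) : ℂ) * (D κ j * (lz m * lM M (m + j)))) := by ring
          _ = _ := by rw [← e]; ring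
      rw [sum_congr rfl h7, ← mul_sum, norm_mul, Complex.norm_real, Real.norm_eq_abs, abs_of_pos (inv_pos.2 hV)]
      apply mul_le_mul_of_nonneg_left _ (inv_pos.2 hV).le
      refine (norm_sum_le _ _).trans ?_
      refine le_trans (sum_le_sum fun j _ => ?_) (hmrt (fun m => (((Vz w) ^ f * nu (ca a κ.1 κ.2.2) w (κ.2.1 * m) : ℝ) : ℂ) * lz m) ?_)
      · rw [norm_mul]
        exact mul_le_of_le_one_left (norm_nonneg _) (hD κ j)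
      · intro m
        rw [norm_mul, Complex.norm_real, Real.norm_eq_abs]
        apply mul_le_one₀ _ (norm_nonneg _) (lz_norm _)
        rw [abs_of_nonneg (mul_nonneg hV.le (nu_nonneg _ _ _))]
        have := mul_le_mul_of_nonneg_left (nu_le (ca a κ.1 κ.2.2) w (κ.2.1 * m)) hV.le
        rw [mul_inv_cancel₀ hV.ne'] at this
        exact this
    refine (norm_sum_le _ _).trans ((sum_le_sum h6).trans ?_)
    rw [sum_const, nsmul_eq_mul]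
    apply mul_le_mul_of_nonneg_right (card_KA f P L H a)
    positivity

end Pool.Agent.H526.FD
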