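import Mathlib
import Pool.Agent.H526.FD.A4
import Pool.Agent.H526.FC.P8
import Pool.Graph.R_pool_sql_team_seeded_b677cdb8.E8helper16.SL.G3

set_option autoImplicit false

/-! The block estimate with the sieve weight, summed over the tuples. -/

namespace Pool.Agent.H526.FD
open Finset
open Pool.Agent.H373R2.T7 (Vz Vz_pos pz mem_pz PerB)
open Pool.Agent.H526.FC
open Pool.Agent.E8helper16.SL (nu nu_nonneg nu_le lz lM lM_conj lz_norm GM Gz GM_eq_Gz FL inv_ge_one)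

/-- the constant of the diagonal -/
noncomputable def DE (f : ℕ) (C7 : ℝ) : ℝ :=
  2 * (f * (((2 * f : ℕ) : ℝ) ^ (2 * f) * (C7 ^ (2 * f) + (7 + 72 * (f : ℝ) ^ 2)))) + 2

lemma blockB' {f b x w z y K L H M : ℕ} (a : Fin f → ℤ) (hf : 1 ≤ f) (hfw : 64 * f ^ 2 ≤ w) (hfw' : 16 * f + 1 ≤ w)
    (hFL : FL (2 * f) b x z) (hwz : w ≤ z) (hy : 1 ≤ y) (hCw : C2 f ≤ w) (hCw5 : C5 f ≤ w) (hKy : 32 * f ^ 3 * K * w ≤ y) (hwb : w = 2 ^ b)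
    (P : Finset ℕ) (hP : ∀ p ∈ P, p ∈ pz z) (hL : 1 ≤ L) (hLK : 2 * L ≤ 2 ^ K)
    (hsize : ∀ κ ∈ KA f P L H a, ∀ κ' ∈ KA f P L H a, ∀ q, (DA a κ κ' q).natAbs ≤ 2 ^ K)
    (hW : WW (C2 f) y ≤ L * (1 / 2 : ℝ) ^ b) (hW5 : WW (C5 f) y ≤ L)
    (hR : 4 * (((Vz z) ^ (2 * f))⁻¹ * √(x : ℝ)) ≤ M * (1 / 2 : ℝ) ^ b)
    (hR4 : ((Vz z) ^ (4 * f))⁻¹ * √(x : ℝ) ≤ M) (C7 : ℝ) (hC7 : 1 ≤ C7) (hZ : (Vz z)⁻¹ ≤ C7 * L)
    (hA : DE f C7 ≤ P.card * (1 / 2 : ℝ) ^ b) :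
    ∑ κ ∈ KA f P L H a, ∑ κ' ∈ KA f P L H a, |CA a κ κ' M w z| ≤
      TA f P L H ^ 2 * (M * (C8 f * ((Vz w) ^ (2 * f))⁻¹ * (1 / 2 : ℝ) ^ b)) := by
  classical
  have hw1 : 1 ≤ w := by omega
  have hL0 : (0 : ℝ) < L := by exact_mod_cast hL
  have hPp : ∀ p ∈ P, p.Prime := fun p hp => (mem_pz.1 (hP p hp)).2
  have hf3 : 4 * f * K * (3 * f ^ 2) * w ≤ y := by
    refine le_trans ?_ hKy
    have e1 : 4 * f * K * (3 * f ^ 2) * w = 12 * f ^ 3 * K * w := by ring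
    rw [e1]
    apply Nat.mul_le_mul_right
    apply Nat.mul_le_mul_right
    apply Nat.mul_le_mul_right
    norm_num
  have hf4 : 8 * f * K * (4 * f ^ 2) * w ≤ y := by
    refine le_trans (le_of_eq ?_) hKy
    ring
  have h1 := off' (M := M) a hf (by omega) (by omega) (FL_mono (f := 2 * f) (by omega) hFL) hwz hy hCw hf3 hL P hPp hsize
  have h2 := diag' (M := M) (H := H) a hf hfw hfw' hFL hwz hy hf4 hCw5 hW5 P hP hL hLK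
  have hsplit : ∑ κ ∈ KA f P L H a, ∑ κ' ∈ KA f P L H a, |CA a κ κ' M w z| =
      ∑ κ ∈ KA f P L H a, ∑ κ' ∈ (KA f P L H a).filter (fun κ' => κ'.2.1 = κ.2.1), |CA a κ κ' M w z| +
      ∑ κ ∈ KA f P L H a, ∑ κ' ∈ (KA f P L H a).filter (fun κ' => κ'.2.1 ≠ κ.2.1), |CA a κ κ' M w z| := by
    rw [← sum_add_distrib]
    apply sum_congr rfl
    intro κ _
    rw [sum_filter_add_sum_filter_not]
  rw [hsplit]
  obtain ⟨e, he⟩ : ∃ e, e = (1 / 2 : ℝ) ^ b := ⟨_, rfl⟩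
  have hw : (w : ℝ) = e⁻¹ := by rw [hwb, he]; push_cast; rw [one_div, inv_pow, inv_inv]
  have he0 : 0 < e := by rw [he]; positivity
  rw [← he] at hW hR hA h1 ⊢
  rw [hw] at h1
  obtain ⟨V, hV⟩ : ∃ V, V = ((Vz w) ^ (2 * f))⁻¹ := ⟨_, rfl⟩
  have hV1 : 1 ≤ V := by rw [hV]; exact inv_ge_one w (2 * f)
  rw [← hV] at h1 h2 ⊢
  have hM0 : (0 : ℝ) ≤ M := Nat.cast_nonneg _
  have hP0 : (0 : ℝ) ≤ P.card := Nat.cast_nonneg _
  have hT := TA_nonneg f P L H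
  have hC2 := C2_pos f
  have hf0 : (0 : ℝ) ≤ f := Nat.cast_nonneg _
  -- the pairs with different primes
  have g1 : TA f P L H ^ 2 * (M * V * (12 * ((8 * f + 1) / e⁻¹) + 54 * (f : ℝ) ^ 2 * (2 * C2 f / e⁻¹ + WW (C2 f) y / L) +
        12 * (f : ℝ) ^ 2 / e⁻¹ + 4 * e) + 4 * (((Vz z) ^ (2 * f))⁻¹ * √(x : ℝ))) ≤
      TA f P L H ^ 2 * (M * ((C8 f - 1) * V * e)) := by
    apply mul_le_mul_of_nonneg_left _ (by positivity)
    have q1 : WW (C2 f) y / L ≤ e := by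
      rw [div_le_iff₀ hL0]
      linarith
    have q2 : (M : ℝ) * e ≤ M * V * e := by
      have : (M : ℝ) * 1 ≤ M * V := mul_le_mul_of_nonneg_left hV1 hM0
      have := mul_le_mul_of_nonneg_right this he0.le
      linarith
    have q3 : 54 * (f : ℝ) ^ 2 * (2 * C2 f / e⁻¹ + WW (C2 f) y / L) ≤ 54 * (f : ℝ) ^ 2 * (2 * C2 f / e⁻¹ + e) := by
      apply mul_le_mul_of_nonneg_left _ (by positivity)
      linarith
    have q4 : (M : ℝ) * V * (12 * ((8 * f + 1) / e⁻¹) + 54 * (f : ℝ) ^ 2 * (2 * C2 f / e⁻¹ + WW (C2 f) y / L) +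
        12 * (f : ℝ) ^ 2 / e⁻¹ + 4 * e) ≤ M * V * (12 * ((8 * f + 1) / e⁻¹) + 54 * (f : ℝ) ^ 2 * (2 * C2 f / e⁻¹ + e) +
        12 * (f : ℝ) ^ 2 / e⁻¹ + 4 * e) := by
      apply mul_le_mul_of_nonneg_left _ (by positivity)
      linarith
    refine (add_le_add q4 (hR.trans q2)).trans (le_of_eq ?_)
    unfold C8
    simp only [div_inv_eq_mul]
    ring
  -- the pairs with the same prime
  have g2 : (P.card : ℝ) * (2 * (H : ℝ) ^ 2 * (f * (((2 * f : ℕ) : ℝ) ^ (2 * f) * (M * ((Vz z) ^ (2 * f))⁻¹ + (L : ℝ) ^ (2 * f) *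
        (2 * M * (V * (3 + 36 * (f : ℝ) ^ 2)) + ((Vz z) ^ (4 * f))⁻¹ * √(x : ℝ))))) +
        2 * M * ((H * (L : ℝ) ^ f) ^ 2 * V)) ≤ TA f P L H ^ 2 * (M * (V * e)) := by
    obtain ⟨F, hF⟩ : ∃ F : ℝ, F = ((2 * f : ℕ) : ℝ) ^ (2 * f) := ⟨_, rfl⟩
    have hF0 : 0 ≤ F := by rw [hF]; positivity
    unfold DE at hA
    rw [← hF] at hA ⊢
    obtain ⟨L2, hL2⟩ : ∃ L2 : ℝ, L2 = (L : ℝ) ^ (2 * f) := ⟨_, rfl⟩
    have hL20 : 0 ≤ L2 := by rw [hL2]; positivity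
    have r1 : ((Vz z) ^ (2 * f))⁻¹ ≤ C7 ^ (2 * f) * L2 := by
      rw [← inv_pow, hL2, ← mul_pow]
      exact pow_le_pow_left₀ (inv_pos.2 (Vz_pos z)).le hZ _
    have r3 : (H * (L : ℝ) ^ f) ^ 2 = (H : ℝ) ^ 2 * L2 := by rw [hL2, mul_pow, mul_comm 2 f, pow_mul]
    have r4 : TA f P L H ^ 2 = (P.card : ℝ) ^ 2 * ((H : ℝ) ^ 2 * L2) := by
      unfold TA
      rw [← r3]
      ring
    rw [← hL2, r3, r4]
    have C0 : 0 ≤ C7 ^ (2 * f) := by positivity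
    have i1 : (M : ℝ) * ((Vz z) ^ (2 * f))⁻¹ ≤ M * (V * (C7 ^ (2 * f) * L2)) := by
      apply mul_le_mul_of_nonneg_left _ hM0
      refine r1.trans ?_
      exact le_mul_of_one_le_left (by positivity) hV1
    have i2 : 2 * M * (V * (3 + 36 * (f : ℝ) ^ 2)) + ((Vz z) ^ (4 * f))⁻¹ * √(x : ℝ) ≤ M * (V * (7 + 72 * (f : ℝ) ^ 2)) := by
      have : (M : ℝ) ≤ M * V := le_mul_of_one_le_right hM0 hV1
      calc _ ≤ 2 * M * (V * (3 + 36 * (f : ℝ) ^ 2)) + M * V := by linarith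
        _ = _ := by ring
    have i3 : L2 * (2 * M * (V * (3 + 36 * (f : ℝ) ^ 2)) + ((Vz z) ^ (4 * f))⁻¹ * √(x : ℝ)) ≤
        L2 * (M * (V * (7 + 72 * (f : ℝ) ^ 2))) := mul_le_mul_of_nonneg_left i2 hL20
    have i4 : f * (F * (M * ((Vz z) ^ (2 * f))⁻¹ + L2 * (2 * M * (V * (3 + 36 * (f : ℝ) ^ 2)) + ((Vz z) ^ (4 * f))⁻¹ * √(x : ℝ)))) ≤
        f * (F * (M * (V * (C7 ^ (2 * f) * L2)) + L2 * (M * (V * (7 + 72 * (f : ℝ) ^ 2))))) :=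
      mul_le_mul_of_nonneg_left (mul_le_mul_of_nonneg_left (add_le_add i1 i3) hF0) hf0
    have i5 := mul_le_mul_of_nonneg_left i4 (by positivity : (0 : ℝ) ≤ 2 * (H : ℝ) ^ 2)
    calc _ ≤ (P.card : ℝ) * (2 * (H : ℝ) ^ 2 * (f * (F * (M * (V * (C7 ^ (2 * f) * L2)) + L2 * (M * (V * (7 + 72 * (f : ℝ) ^ 2)))))) +
          2 * M * ((H : ℝ) ^ 2 * L2 * V)) := by
          apply mul_le_mul_of_nonneg_left _ hP0
          linarith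
      _ = ((P.card : ℝ) * (H : ℝ) ^ 2 * L2 * M * V) * (2 * (f * (F * (C7 ^ (2 * f) + (7 + 72 * (f : ℝ) ^ 2)))) + 2) := by ring
      _ ≤ ((P.card : ℝ) * (H : ℝ) ^ 2 * L2 * M * V) * (P.card * e) := mul_le_mul_of_nonneg_left hA (by positivity)
      _ = _ := by ring
  calc _ ≤ TA f P L H ^ 2 * (M * (V * e)) + TA f P L H ^ 2 * (M * ((C8 f - 1) * V * e)) := add_le_add (h2.trans g2) (h1.trans g1)
    _ = _ := by ring

/-- the sum of the weights over the tuples -/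
lemma sum_nu' {f b x w z y K L N : ℕ} (a : Fin f → ℤ) (hf : 1 ≤ f) (hfw : 16 * f ^ 2 ≤ w) (hfw' : 8 * f + 1 ≤ w)
    (hFL : FL f b x z) (hwz : w ≤ z) (hy : 1 ≤ y) (hCw : C2 f ≤ w) (hKy : 32 * f ^ 3 * K * w ≤ y)
    (hL : 1 ≤ L) (hdf : ∀ s ∈ Ta f L a, ∀ q, (df (ca a s 0) q).natAbs ≤ 2 ^ K) (hW : WW (C2 f) y ≤ L) (hRN : ((Vz z) ^ (2 * f))⁻¹ * √(x : ℝ) ≤ N) :
    ∑ s ∈ Ta f L a, ∑ n ∈ Icc 1 N, nu (ca a s 0) z (n : ℤ) ≤ (7 + 18 * (f : ℝ) ^ 2) * ((Vz w) ^ f)⁻¹ * ((L : ℝ) ^ f * N) := by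
  classical
  have hw1 : 1 ≤ w := by omega
  have hw0 : (0 : ℝ) < w := by exact_mod_cast hw1
  have hL0 : (0 : ℝ) < L := by exact_mod_cast hL
  have hN0 : (0 : ℝ) ≤ N := Nat.cast_nonneg _
  obtain ⟨V, hV⟩ : ∃ V, V = ((Vz w) ^ f)⁻¹ := ⟨_, rfl⟩
  have hV1 : 1 ≤ V := by rw [hV]; exact inv_ge_one w f
  obtain ⟨C1, hC1⟩ : ∃ C1 : ℝ, C1 = (1 + 4 * (f : ℝ)) ^ (f ^ 2) := ⟨_, rfl⟩
  have hC10 : 0 ≤ C1 := by rw [hC1]; positivity
  have hC12 : C1 ≤ C2 f := by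
    rw [hC1]
    unfold C2
    apply pow_le_pow_right₀
    · have : (0 : ℝ) ≤ 4 * f := by positivity
      linarith
    · omega
  have hWW : WW C1 y ≤ WW (C2 f) y := by
    unfold WW
    apply prod_le_prod
    · intro l _
      positivity
    · intro l _
      have : C1 / (l : ℝ) ≤ C2 f / l := div_le_div_of_nonneg_right hC12 (Nat.cast_nonneg l)
      linarith
  have h1 : ∀ s ∈ Ta f L a, ∑ n ∈ Icc 1 N, nu (ca a s 0) z (n : ℤ) ≤ 2 * N * (V * (3 + 3 * EX (df (ca a s 0)) C1 w y)) + N := by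
    intro s hs
    have q := single_le (ca a s 0) 1 hf hfw hFL hwz (nz_one _) N
    have q2 : ∑ m ∈ Icc 1 N, nu (ca a s 0) z (((1 : ℕ) : ℤ) * m) = ∑ n ∈ Icc 1 N, nu (ca a s 0) z (n : ℤ) := by
      apply sum_congr rfl
      intro m _
      congr 1
      push_cast
      ring
    rw [q2, ← hV] at q
    have q3 := GU_sub (df (ca a s 0)) (C := 4 * (f : ℝ)) (z := z) (w := w) (y := y) (K := K) (d := 1) (d' := 1) (by positivity)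
      (by omega) hy (by
        have : ((8 * f + 1 : ℕ) : ℝ) ≤ w := by exact_mod_cast hfw'
        push_cast at this ⊢
        linarith) (by
        rw [Fintype.card_prod, Fintype.card_fin]
        have h5 : 4 * f * K * (f * f) * w ≤ y := by
          refine le_trans ?_ hKy
          have e1 : 4 * f * K * (f * f) * w = 4 * f ^ 3 * K * w := by ring
          rw [e1]
          apply Nat.mul_le_mul_right
          apply Nat.mul_le_mul_right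
          apply Nat.mul_le_mul_right
          norm_num
        have : ((4 * f * K * (f * f) * w : ℕ) : ℝ) ≤ y := by exact_mod_cast h5
        push_cast at this ⊢
        exact this) (Or.inl rfl) (Or.inl rfl) (by
        intro q
        exact ⟨df_ne' hs 0 q, hdf s hs q⟩)
    have e1 : (1 + 4 * (f : ℝ)) ^ (Fintype.card (Fin f × Fin f)) = C1 := by
      rw [hC1, Fintype.card_prod, Fintype.card_fin, ← pow_two]
    rw [e1] at q3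
    have q4 : 2 * ((2 * (4 * (f : ℝ)) + 1) / w) ≤ 2 := by
      have : (2 * (4 * (f : ℝ)) + 1) / w ≤ 1 := by
        rw [div_le_one hw0]
        have : ((8 * f + 1 : ℕ) : ℝ) ≤ w := by exact_mod_cast hfw'
        push_cast at this ⊢
        linarith
      linarith
    have q5 : GU (df (ca a s 0)) (4 * f) w z 1 1 ≤ 3 + 3 * EX (df (ca a s 0)) C1 w y := by linarith
    have q6 : 2 * (N : ℝ) * (V * GU (df (ca a s 0)) (4 * f) w z 1 1) ≤ 2 * N * (V * (3 + 3 * EX (df (ca a s 0)) C1 w y)) := by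
      apply mul_le_mul_of_nonneg_left _ (by positivity)
      exact mul_le_mul_of_nonneg_left q5 (by linarith)
    linarith
  refine (sum_le_sum h1).trans ?_
  have h2 : ∑ s ∈ Ta f L a, EX (df (ca a s 0)) C1 w y ≤ (f : ℝ) ^ 2 * ((L : ℝ) ^ f * 3) := by
    unfold EX
    rw [sum_comm]
    have h3 : ∀ q ∈ (univ : Finset (Fin f × Fin f)), ∑ s ∈ Ta f L a, (AA w y C1 (df (ca a s 0) q) - 1) ≤ (L : ℝ) ^ f * 3 := by
      intro q _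
      refine (avg_intra' (y := y) a hw1 hL hC10 (hC12.trans hCw) q 0).trans ?_
      apply mul_le_mul_of_nonneg_left _ (by positivity)
      have a1 : 2 * C1 / w ≤ 2 := by
        rw [div_le_iff₀ hw0]
        have := hC12.trans hCw
        linarith
      have a2 : WW C1 y / L ≤ 1 := by
        rw [div_le_one hL0]
        exact hWW.trans hW
      linarith
    refine (sum_le_sum h3).trans (le_of_eq ?_)
    rw [sum_const, card_univ, Fintype.card_prod, Fintype.card_fin, nsmul_eq_mul]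
    push_cast
    ring
  have e : ∀ s ∈ Ta f L a, 2 * (N : ℝ) * (V * (3 + 3 * EX (df (ca a s 0)) C1 w y)) + N =
      (6 * N * V + N) + (6 * N * V) * EX (df (ca a s 0)) C1 w y := by
    intro s _
    ring
  rw [sum_congr rfl e, sum_add_distrib, sum_const, nsmul_eq_mul, ← mul_sum, ← hV]
  have h4 := mul_le_mul_of_nonneg_left h2 (by positivity : (0 : ℝ) ≤ 6 * N * V)
  have h5 := mul_le_mul_of_nonneg_right (card_Ta f L a) (by positivity : (0 : ℝ) ≤ 6 * N * V + N)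
  have h6 : (N : ℝ) ≤ N * V := le_mul_of_one_le_right hN0 hV1
  have h7 : (L : ℝ) ^ f * N ≤ (L : ℝ) ^ f * (N * V) := mul_le_mul_of_nonneg_left h6 (by positivity)
  calc _ ≤ (L : ℝ) ^ f * (6 * N * V + N) + 6 * N * V * ((f : ℝ) ^ 2 * ((L : ℝ) ^ f * 3)) := add_le_add h5 h4
    _ = (6 + 18 * (f : ℝ) ^ 2) * V * ((L : ℝ) ^ f * N) + (L : ℝ) ^ f * N := by ring
    _ ≤ (6 + 18 * (f : ℝ) ^ 2) * V * ((L : ℝ) ^ f * N) + (L : ℝ) ^ f * (N * V) := by linarith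
    _ = _ := by ring

/-- the `L¹` bound over the block -/
theorem block_nu' {f b x w z y K L H J M N : ℕ} (a : Fin f → ℤ) (hf : 1 ≤ f) (hfw : 64 * f ^ 2 ≤ w) (hfw' : 16 * f + 1 ≤ w)
    (hFL : FL (2 * f) b x z) (hwz : w ≤ z) (hy : 1 ≤ y) (hCw : C2 f ≤ w) (hCw5 : C5 f ≤ w) (hKy : 32 * f ^ 3 * K * w ≤ y) (hwb : w = 2 ^ b)
    (P : Finset ℕ) (hP : ∀ p ∈ P, p ∈ pz z) (hL : 1 ≤ L) (hLK : 2 * L ≤ 2 ^ K) (hdf : ∀ s ∈ Ta f L a, ∀ q, (df (ca a s 0) q).natAbs ≤ 2 ^ K)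
    (hsize : ∀ κ ∈ KA f P L H a, ∀ κ' ∈ KA f P L H a, ∀ q, (DA a κ κ' q).natAbs ≤ 2 ^ K)
    (hW : WW (C2 f) y ≤ L * (1 / 2 : ℝ) ^ b) (hW5 : WW (C5 f) y ≤ L)
    (hR : 4 * (((Vz z) ^ (2 * f))⁻¹ * √(x : ℝ)) ≤ M * (1 / 2 : ℝ) ^ b)
    (hR4 : ((Vz z) ^ (4 * f))⁻¹ * √(x : ℝ) ≤ M) (C7 : ℝ) (hC7 : 1 ≤ C7) (hZ : (Vz z)⁻¹ ≤ C7 * L)
    (hA : DE f C7 ≤ P.card * (1 / 2 : ℝ) ^ b)
    (c : (Fin f → ℕ) → ℕ → ℂ) (hc : ∀ s h, ‖c s h‖ ≤ 1) (hJ : ∀ p ∈ P, H ≤ p * J)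
    (hmrt : ∀ g : ℕ → ℂ, (∀ n, ‖g n‖ ≤ 1) → ∑ j ∈ Ioo (-(J : ℤ)) J, ‖∑ m ∈ Icc 1 M, g m * lM M (m + j)‖ ≤ (1 / 2 : ℝ) ^ b * J * M)
    (hMN : ∀ p ∈ P, N + H ≤ p * M) (hRN : ((Vz z) ^ (2 * f))⁻¹ * √(x : ℝ) ≤ N) (T : ℝ)
    (hT : (H : ℝ) * J * M ≤ 4 * N * T ^ 2) (hT0 : 0 ≤ T) :
    ∑ s ∈ Ta f L a, ∑ p ∈ P, ∑ n ∈ Icc 1 N, nu (ca a s 0) z n * ‖Gz (c s) H p n‖ ≤
      P.card * ((L : ℝ) ^ f * (T * N)) * √(4 * (7 + 18 * (f : ℝ) ^ 2) * ((Vz w) ^ f)⁻¹ *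
        (2 * √(C8 f * ((Vz w) ^ (2 * f))⁻¹ * (1 / 2 : ℝ) ^ b) + ((Vz w) ^ f)⁻¹ * (1 / 2 : ℝ) ^ b)) := by
  classical
  obtain ⟨β, hβ⟩ : ∃ β, β = C8 f * ((Vz w) ^ (2 * f))⁻¹ * (1 / 2 : ℝ) ^ b := ⟨_, rfl⟩
  have hC8 := C8_nonneg f
  have hVw := (Vz_pos w).le
  have hβ0 : 0 ≤ β := by rw [hβ]; positivity
  have hB := blockB' (H := H) a hf hfw hfw' hFL hwz hy hCw hCw5 hKy hwb P hP hL hLK hsize hW hW5 hR hR4 C7 hC7 hZ hA
  rw [← hβ] at hB ⊢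
  have hU := U_bound' a c hc (w := w) (z := z) (J := J) (M := M) P hP hJ ((1 / 2 : ℝ) ^ b) _ (by positivity) hmrt hB
  obtain ⟨V, hV⟩ : ∃ V, V = ((Vz w) ^ f)⁻¹ := ⟨_, rfl⟩
  obtain ⟨e, he⟩ : ∃ e, e = (1 / 2 : ℝ) ^ b := ⟨_, rfl⟩
  rw [← hV, ← he] at hU ⊢
  have hV1 : 1 ≤ V := by rw [hV]; exact inv_ge_one w f
  have he0 : 0 < e := by rw [he]; positivity
  have he1 : e ≤ 1 := by rw [he]; exact pow_le_one₀ (by norm_num) (by norm_num)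
  have hM0 : (0 : ℝ) ≤ M := Nat.cast_nonneg _
  have hJ0 : (0 : ℝ) ≤ J := Nat.cast_nonneg _
  have hN0 : (0 : ℝ) ≤ N := Nat.cast_nonneg _
  have hH0 : (0 : ℝ) ≤ H := Nat.cast_nonneg _
  have hL0 : (0 : ℝ) ≤ L := Nat.cast_nonneg _
  have hP0 : (0 : ℝ) ≤ P.card := Nat.cast_nonneg _
  have hTK := TA_nonneg f P L H
  have e1 : √(M * (TA f P L H ^ 2 * (M * β))) = TA f P L H * (M * √β) := by
    have : (M : ℝ) * (TA f P L H ^ 2 * (M * β)) = (TA f P L H * M) ^ 2 * β := by ring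
    rw [this, Real.sqrt_mul (sq_nonneg _), Real.sqrt_sq (by positivity)]
    ring
  rw [e1] at hU
  have hU2 : ∑ s ∈ Ta f L a, ∑ p ∈ P, ∑ n ∈ Icc (-(H : ℤ)) (p * M), nu (ca a s 0) z n * ‖GM (c s) H p M n‖ ^ 2 ≤
      P.card * (L : ℝ) ^ f * (4 * N * T ^ 2) * (2 * √β + V * e) := by
    have q : (0 : ℝ) ≤ 2 * √β + V * e := by positivity
    calc _ ≤ _ := hU
      _ = P.card * (L : ℝ) ^ f * (H * J * M) * (2 * √β + V * e) := by unfold TA; ring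
      _ ≤ _ := by
        apply mul_le_mul_of_nonneg_right _ q
        exact mul_le_mul_of_nonneg_left hT (by positivity)
  -- restriction to `1 ≤ n ≤ N`
  have h1 : ∀ s ∈ Ta f L a, ∀ p ∈ P, ∑ n ∈ Icc 1 N, nu (ca a s 0) z n * ‖Gz (c s) H p n‖ ^ 2 ≤
      ∑ n ∈ Icc (-(H : ℤ)) (p * M), nu (ca a s 0) z n * ‖GM (c s) H p M n‖ ^ 2 := by
    intro s _ p hp
    have hMp := hMN p hp
    have h2 : ∑ n ∈ Icc 1 N, nu (ca a s 0) z (n : ℤ) * ‖Gz (c s) H p (n : ℤ)‖ ^ 2 =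
        ∑ n ∈ (Icc 1 N).image (fun n : ℕ => (n : ℤ)), nu (ca a s 0) z n * ‖GM (c s) H p M n‖ ^ 2 := by
      rw [sum_image (fun a _ b _ h => by exact_mod_cast h)]
      apply sum_congr rfl
      intro n hn
      rw [mem_Icc] at hn
      rw [GM_eq_Gz (c s) (mem_pz.1 (hP p hp)).2.one_le hMp (by exact_mod_cast hn.2)]
    rw [h2]
    apply sum_le_sum_of_subset_of_nonneg
    · intro n hn
      rw [mem_image] at hn
      obtain ⟨m, hm, rfl⟩ := hn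
      rw [mem_Icc] at hm ⊢
      constructor
      · have : (0 : ℤ) ≤ (m : ℤ) := Int.natCast_nonneg _
        have : (0 : ℤ) ≤ (H : ℤ) := Int.natCast_nonneg _
        linarith
      · have h3 : m ≤ p * M := by omega
        exact_mod_cast h3
    · intro n _ _
      exact mul_nonneg (nu_nonneg _ z n) (by positivity)
  have h3 : ∑ s ∈ Ta f L a, ∑ p ∈ P, ∑ n ∈ Icc 1 N, nu (ca a s 0) z n * ‖Gz (c s) H p n‖ ^ 2 ≤
      P.card * (L : ℝ) ^ f * (4 * N * T ^ 2) * (2 * √β + V * e) :=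
    (sum_le_sum fun s hs => sum_le_sum (h1 s hs)).trans hU2
  -- the sum of the weights
  have h4 : ∑ s ∈ Ta f L a, ∑ n ∈ Icc 1 N, nu (ca a s 0) z (n : ℤ) ≤ (7 + 18 * (f : ℝ) ^ 2) * V * ((L : ℝ) ^ f * N) := by
    rw [hV]
    have hf2 : 16 * f ^ 2 ≤ 64 * f ^ 2 := Nat.mul_le_mul_right _ (by norm_num)
    refine sum_nu' a hf (hf2.trans hfw) (by omega) (FL_mono (f := 2 * f) (by omega) hFL) hwz hy hCw hKy hL hdf (hW.trans ?_) hRN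
    rw [← he]
    exact mul_le_of_le_one_right hL0 he1
  have h5 : ∑ s ∈ Ta f L a, ∑ p ∈ P, ∑ n ∈ Icc 1 N, nu (ca a s 0) z (n : ℤ) ≤ P.card * ((7 + 18 * (f : ℝ) ^ 2) * V * ((L : ℝ) ^ f * N)) := by
    simp only [sum_const, nsmul_eq_mul]
    rw [← mul_sum]
    exact mul_le_mul_of_nonneg_left h4 hP0
  -- Cauchy-Schwarz
  have h6 : (∑ s ∈ Ta f L a, ∑ p ∈ P, ∑ n ∈ Icc 1 N, nu (ca a s 0) z n * ‖Gz (c s) H p n‖) ^ 2 ≤
      (∑ s ∈ Ta f L a, ∑ p ∈ P, ∑ n ∈ Icc 1 N, nu (ca a s 0) z (n : ℤ)) *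
      (∑ s ∈ Ta f L a, ∑ p ∈ P, ∑ n ∈ Icc 1 N, nu (ca a s 0) z n * ‖Gz (c s) H p n‖ ^ 2) := by
    have q := sum_mul_sq_le_sq_mul_sq (Ta f L a ×ˢ (P ×ˢ Icc 1 N)) (fun r => √(nu (ca a r.1 0) z (r.2.2 : ℤ)))
      (fun r => √(nu (ca a r.1 0) z (r.2.2 : ℤ)) * ‖Gz (c r.1) H r.2.1 (r.2.2 : ℤ)‖)
    rw [sum_product, sum_product, sum_product] at q
    simp only [sum_product] at q
    have q1 : ∀ (s : Fin f → ℕ) (p n : ℕ), √(nu (ca a s 0) z (n : ℤ)) * (√(nu (ca a s 0) z (n : ℤ)) * ‖Gz (c s) H p (n : ℤ)‖) =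
        nu (ca a s 0) z n * ‖Gz (c s) H p n‖ := by
      intro s p n
      rw [← mul_assoc, Real.mul_self_sqrt (nu_nonneg _ z n)]
    have q2 : ∀ (s : Fin f → ℕ) (n : ℕ), √(nu (ca a s 0) z (n : ℤ)) ^ 2 = nu (ca a s 0) z n := fun s n => Real.sq_sqrt (nu_nonneg _ z n)
    simp only [q1, mul_pow, q2] at q
    exact q
  have h7 : (∑ s ∈ Ta f L a, ∑ p ∈ P, ∑ n ∈ Icc 1 N, nu (ca a s 0) z n * ‖Gz (c s) H p n‖) ^ 2 ≤
      (P.card * ((L : ℝ) ^ f * (T * N)) * √(4 * (7 + 18 * (f : ℝ) ^ 2) * V * (2 * √β + V * e))) ^ 2 := by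
    refine h6.trans ?_
    have q0 : (0 : ℝ) ≤ 4 * (7 + 18 * (f : ℝ) ^ 2) * V * (2 * √β + V * e) := by positivity
    rw [mul_pow, Real.sq_sqrt q0]
    have q1 : 0 ≤ ∑ s ∈ Ta f L a, ∑ p ∈ P, ∑ n ∈ Icc 1 N, nu (ca a s 0) z n * ‖Gz (c s) H p n‖ ^ 2 :=
      sum_nonneg fun s _ => sum_nonneg fun p _ => sum_nonneg fun n _ => mul_nonneg (nu_nonneg _ z n) (by positivity)
    calc _ ≤ (P.card * ((7 + 18 * (f : ℝ) ^ 2) * V * ((L : ℝ) ^ f * N))) * (P.card * (L : ℝ) ^ f * (4 * N * T ^ 2) * (2 * √β + V * e)) :=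
          mul_le_mul h5 h3 q1 (by positivity)
      _ = _ := by ring
  exact (abs_le_of_sq_le_sq' h7 (by positivity)).2

end Pool.Agent.H526.FD
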