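import Mathlib
import Pool.Agent.H526.FD.A7
import Pool.Agent.H526.FC.Q3

set_option autoImplicit false

/-! The averaged correlations of the von Mangoldt and Liouville functions: shifts in windows of different lengths at
arbitrary places. -/

namespace Pool.Agent.H526.FD
open Finset Filter Topology
open Pool.Agent.H526.FC
open Pool.Agent.H373R2.T7 (pz mem_pz)
open Pool.Agent.E8helper16.SL (lz lz_norm log_tendsto Rough)

lemma err4 (k : ℕ) (ε : ℝ) (hε : 0 < ε) : ∀ᶠ N : ℕ in atTop,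
    (Real.log (3 * N : ℕ)) ^ k * (k * ((⌊((12 * N : ℕ) : ℝ) ^ (1 / 2 : ℝ)⌋₊ : ℝ) * (Nat.log 2 (3 * N) + 1))) ≤ ε / 2 * N := by
  have h1 := Pool.Agent.E8helper16.SL.log_pow_le (16 * k * 2 ^ (k + 1) / ε * 4) (k + 1) (1 / 2) (by norm_num)
  filter_upwards [h1, eventually_ge_atTop 4] with N g1 g2
  have hN0 : (0 : ℝ) < N := by exact_mod_cast (by omega : 0 < N)
  have hN4 : (4 : ℝ) ≤ N := by exact_mod_cast g2
  obtain ⟨L, hL⟩ : ∃ L, L = Real.log N := ⟨_, rfl⟩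
  have hL1 : 1 ≤ L := by
    rw [hL, Real.le_log_iff_exp_le hN0]
    have := Real.exp_one_lt_d9
    linarith
  have a1 : Real.log (3 * N : ℕ) ≤ 2 * L := by
    push_cast
    rw [Real.log_mul (by norm_num) (by positivity), ← hL]
    have : Real.log 3 ≤ L := by
      rw [hL]
      exact Real.log_le_log (by norm_num) (by linarith)
    linarith
  have a2 : ((Nat.log 2 (3 * N) : ℕ) : ℝ) + 1 ≤ 4 * L := by
    have h2 : ((Nat.log 2 (3 * N) : ℕ) : ℝ) * Real.log 2 ≤ Real.log (3 * N : ℕ) := by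
      rw [← Real.log_pow]
      apply Real.log_le_log (by positivity)
      have := Nat.pow_log_le_self 2 (show 3 * N ≠ 0 by omega)
      exact_mod_cast this
    have h3 := Real.log_two_gt_d9
    have h4 : 0 ≤ ((Nat.log 2 (3 * N) : ℕ) : ℝ) := Nat.cast_nonneg _
    have h5 : ((Nat.log 2 (3 * N) : ℕ) : ℝ) * 0.6931471803 ≤ 2 * L := by nlinarith
    linarith
  have a3 : (⌊((12 * N : ℕ) : ℝ) ^ (1 / 2 : ℝ)⌋₊ : ℝ) ≤ 4 * (N : ℝ) ^ (1 / 2 : ℝ) := by
    refine (Nat.floor_le (by positivity)).trans ?_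
    push_cast
    rw [Real.mul_rpow (by norm_num) hN0.le]
    apply mul_le_mul_of_nonneg_right _ (by positivity)
    rw [← Real.sqrt_eq_rpow]
    rw [Real.sqrt_le_left (by norm_num)]
    norm_num
  have hL0 : 0 ≤ Real.log (3 * N : ℕ) := Real.log_nonneg (by exact_mod_cast (by omega : 1 ≤ 3 * N))
  have a4 : (Real.log (3 * N : ℕ)) ^ k ≤ (2 * L) ^ k := pow_le_pow_left₀ hL0 a1 k
  have h2 : (N : ℝ) ^ (1 / 2 : ℝ) * (N : ℝ) ^ (1 / 2 : ℝ) = N := by
    rw [← Real.rpow_add hN0]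
    norm_num
  have h3 : 0 < (N : ℝ) ^ (1 / 2 : ℝ) := by positivity
  rw [← hL] at g1
  calc (Real.log (3 * N : ℕ)) ^ k * (k * ((⌊((12 * N : ℕ) : ℝ) ^ (1 / 2 : ℝ)⌋₊ : ℝ) * (Nat.log 2 (3 * N) + 1))) ≤
        (2 * L) ^ k * (k * ((4 * (N : ℝ) ^ (1 / 2 : ℝ)) * (4 * L))) := by gcongr
    _ = (16 * k * 2 ^ k * L ^ (k + 1)) * (N : ℝ) ^ (1 / 2 : ℝ) := by ring
    _ ≤ (ε / 2 * (N : ℝ) ^ (1 / 2 : ℝ)) * (N : ℝ) ^ (1 / 2 : ℝ) := by
        apply mul_le_mul_of_nonneg_right _ h3.le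
        have g3 := mul_le_mul_of_nonneg_left g1 (by positivity : (0 : ℝ) ≤ ε / 2)
        refine le_trans ?_ g3
        have e1 : ε / 2 * (16 * k * 2 ^ (k + 1) / ε * 4 * L ^ (k + 1)) = 4 * (16 * k * 2 ^ k * L ^ (k + 1)) := by
          field_simp
          ring
        rw [e1]
        have : 0 ≤ 16 * k * 2 ^ k * L ^ (k + 1) := by positivity
        linarith
    _ = ε / 2 * N := by rw [mul_assoc, h2]

/-- the correlations, averaged over all shifts -/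
theorem avg4 (k : ℕ) (hk : 1 ≤ k) (ε : ℝ) (hε : 0 < ε) : ∃ η : ℝ, 0 < η ∧ ∃ A N₀ : ℕ, ∀ N : ℕ, N₀ ≤ N →
    ∀ R H : ℕ, R ≤ N → H ≤ N → Real.log N ^ (1 - η) ≤ R → (A : ℝ) * (1 + Real.log N / R) ^ A ≤ H →
      ∀ (a : Fin k → ℕ) (B : ℕ), (∀ i, a i ≤ N) → B ≤ N → ∀ b : (Fin k → ℕ) → ℕ → ℂ, (∀ s n, ‖b s n‖ ≤ 1) →
      ∑ s ∈ Ta k R (fun i => (B : ℤ) - a i), ∑ h ∈ Icc 1 H,
        ‖∑ n ∈ Icc 1 N, b s n * (LP (fun i => a i + s i) n : ℂ) * lz ((n + B + h : ℕ) : ℤ)‖ ≤ ε * ((R : ℝ) ^ k * H * N) := by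
  classical
  obtain ⟨η₁, hη₁, hη₂, A₁, N₁, hcore⟩ := core4 k hk (1 / 2) (by norm_num) (ε / 24) (by positivity)
  have hlogc : ∀ᶠ N : ℕ in atTop, (2 : ℝ) ≤ Real.log N ^ (η₁ / 2) := by
    have h1 : Tendsto (fun N : ℕ => Real.log N ^ (η₁ / 2)) atTop atTop := (tendsto_rpow_atTop (by positivity)).comp log_tendsto
    exact h1.eventually_ge_atTop 2
  obtain ⟨N₃, hN₃⟩ := eventually_atTop.1 hlogc
  obtain ⟨N₂, herr⟩ := eventually_atTop.1 (err4 k ε hε)
  refine ⟨η₁ / 2, by positivity, A₁ * 2 ^ A₁, N₁ + N₂ + N₃ + 12, fun N hN R H hRN hHN hR1 hH1 a B ha hB b hb => ?_⟩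
  have hN12 : 12 ≤ N := by omega
  have hN0 : (0 : ℝ) < N := by exact_mod_cast (by omega : 0 < N)
  have hN12r : (12 : ℝ) ≤ N := by exact_mod_cast hN12
  have hlogN : 0 < Real.log N := Real.log_pos (by linarith)
  have hlog12 : Real.log ((12 * N : ℕ) : ℝ) ≤ 2 * Real.log N := by
    push_cast
    rw [Real.log_mul (by norm_num) (by positivity)]
    have := Real.log_le_log (by norm_num : (0 : ℝ) < 12) hN12r
    linarith
  have hR0 : (0 : ℝ) < R := lt_of_lt_of_le (by positivity) hR1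
  have hcond : Real.log ((12 * N : ℕ) : ℝ) ^ (1 - η₁) ≤ R := by
    have h1 := hN₃ N (by omega)
    have hl0 : 0 ≤ Real.log ((12 * N : ℕ) : ℝ) := Real.log_nonneg (by exact_mod_cast (by omega : 1 ≤ 12 * N))
    have h2 : Real.log ((12 * N : ℕ) : ℝ) ^ (1 - η₁) ≤ (2 * Real.log N) ^ (1 - η₁) := Real.rpow_le_rpow hl0 hlog12 (by linarith)
    have h3 : (2 * Real.log N) ^ (1 - η₁) = 2 ^ (1 - η₁) * Real.log N ^ (1 - η₁) := Real.mul_rpow (by norm_num) hlogN.le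
    have h4 : (2 : ℝ) ^ (1 - η₁) ≤ 2 ^ (1 : ℝ) := Real.rpow_le_rpow_of_exponent_le (by norm_num) (by linarith)
    rw [Real.rpow_one] at h4
    have h5 : 0 ≤ Real.log N ^ (1 - η₁) := by positivity
    have h6 : Real.log N ^ (η₁ / 2) * Real.log N ^ (1 - η₁) = Real.log N ^ (1 - η₁ / 2) := by
      rw [← Real.rpow_add hlogN]
      congr 1
      ring
    calc Real.log ((12 * N : ℕ) : ℝ) ^ (1 - η₁) ≤ 2 ^ (1 - η₁) * Real.log N ^ (1 - η₁) := h2.trans (le_of_eq h3)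
      _ ≤ 2 * Real.log N ^ (1 - η₁) := mul_le_mul_of_nonneg_right h4 h5
      _ ≤ Real.log N ^ (η₁ / 2) * Real.log N ^ (1 - η₁) := mul_le_mul_of_nonneg_right h1 h5
      _ = Real.log N ^ (1 - η₁ / 2) := h6
      _ ≤ R := hR1
  have hcondH : (A₁ : ℝ) * (1 + Real.log ((12 * N : ℕ) : ℝ) / R) ^ A₁ ≤ H := by
    refine le_trans ?_ hH1
    have hl0 : 0 ≤ Real.log ((12 * N : ℕ) : ℝ) := Real.log_nonneg (by exact_mod_cast (by omega : 1 ≤ 12 * N))
    have hu : 1 ≤ 1 + Real.log N / R := by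
      have : 0 ≤ Real.log N / R := by positivity
      linarith
    have h1 : 1 + Real.log ((12 * N : ℕ) : ℝ) / R ≤ 2 * (1 + Real.log N / R) := by
      have : Real.log ((12 * N : ℕ) : ℝ) / R ≤ 2 * Real.log N / R := div_le_div_of_nonneg_right hlog12 hR0.le
      have e : 2 * Real.log N / R = 2 * (Real.log N / R) := by ring
      rw [e] at this
      linarith
    have h0 : 0 ≤ 1 + Real.log ((12 * N : ℕ) : ℝ) / R := by positivity
    have h2 := pow_le_pow_left₀ h0 h1 A₁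
    rw [mul_pow] at h2
    have h3 : (1 + Real.log N / R) ^ A₁ ≤ (1 + Real.log N / R) ^ (A₁ * 2 ^ A₁) := by
      apply pow_le_pow_right₀ hu
      exact Nat.le_mul_of_pos_right _ (by positivity)
    have e1 : ((A₁ * 2 ^ A₁ : ℕ) : ℝ) = A₁ * 2 ^ A₁ := by push_cast; ring
    rw [e1]
    calc (A₁ : ℝ) * (1 + Real.log ((12 * N : ℕ) : ℝ) / R) ^ A₁ ≤ A₁ * (2 ^ A₁ * (1 + Real.log N / R) ^ A₁) :=
          mul_le_mul_of_nonneg_left h2 (Nat.cast_nonneg _)
      _ ≤ A₁ * (2 ^ A₁ * (1 + Real.log N / R) ^ (A₁ * 2 ^ A₁)) := by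
          apply mul_le_mul_of_nonneg_left _ (Nat.cast_nonneg _)
          exact mul_le_mul_of_nonneg_left h3 (by positivity)
      _ = A₁ * 2 ^ A₁ * (1 + Real.log N / R) ^ (A₁ * 2 ^ A₁) := by ring
  obtain ⟨z, hz⟩ : ∃ z : ℕ, z = ⌊((12 * N : ℕ) : ℝ) ^ (1 / 2 : ℝ)⌋₊ := ⟨_, rfl⟩
  have hz1 : ((12 * N : ℕ) : ℝ) ^ (1 / 2 : ℝ) ≤ z + 1 := by
    rw [hz]
    exact (Nat.lt_floor_add_one _).le
  obtain ⟨α, hα⟩ : ∃ α : Fin k → ℤ, α = fun i => (B : ℤ) - a i := ⟨_, rfl⟩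
  rw [← hα]
  have hαN : ∀ i, |α i| ≤ ((12 * N : ℕ) : ℤ) := by
    intro i
    rw [hα]
    have := ha i
    show |(B : ℤ) - a i| ≤ _
    rw [abs_le]
    push_cast
    constructor <;> omega
  -- the phases
  choose ph hph1 hph2 using fun w : (Fin k → ℕ) × ℕ => phase (∑ n ∈ Icc 1 N, b w.1 n * (LP (fun i => a i + w.1 i) n : ℂ) * lz ((n + B + w.2 : ℕ) : ℤ))
  have key := hcore (12 * N) (by omega) R H (by omega) (by omega) hcond hcondH α hαN z hz1 (fun s h => ph (s, h)) (fun s h => hph1 _)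
  obtain ⟨G, hG⟩ : ∃ G : (Fin k → ℕ) → ℕ → ℝ, G = fun s n => ‖∑ h ∈ Icc 1 H, ph (s, h) * lz ((n + B + h : ℕ) : ℤ)‖ := ⟨_, rfl⟩
  have hG0 : ∀ s n, 0 ≤ G s n := by
    intro s n
    rw [hG]
    exact norm_nonneg _
  have hstep : ∀ s ∈ Ta k R α, ∑ h ∈ Icc 1 H, ‖∑ n ∈ Icc 1 N, b s n * (LP (fun i => a i + s i) n : ℂ) * lz ((n + B + h : ℕ) : ℤ)‖ ≤
      ∑ n ∈ Icc 1 N, LP (fun i => a i + s i) n * G s n := by
    intro s _
    have h0 : (0 : ℝ) ≤ ∑ h ∈ Icc 1 H, ‖∑ n ∈ Icc 1 N, b s n * (LP (fun i => a i + s i) n : ℂ) * lz ((n + B + h : ℕ) : ℤ)‖ := sum_nonneg fun _ _ => norm_nonneg _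
    have h1 : ((∑ h ∈ Icc 1 H, ‖∑ n ∈ Icc 1 N, b s n * (LP (fun i => a i + s i) n : ℂ) * lz ((n + B + h : ℕ) : ℤ)‖ : ℝ) : ℂ) =
        ∑ n ∈ Icc 1 N, b s n * (LP (fun i => a i + s i) n : ℂ) * ∑ h ∈ Icc 1 H, ph (s, h) * lz ((n + B + h : ℕ) : ℤ) := by
      rw [Complex.ofReal_sum]
      have h2 : ∀ h ∈ Icc 1 H, ((‖∑ n ∈ Icc 1 N, b s n * (LP (fun i => a i + s i) n : ℂ) * lz ((n + B + h : ℕ) : ℤ)‖ : ℝ) : ℂ) =
          ∑ n ∈ Icc 1 N, b s n * (LP (fun i => a i + s i) n : ℂ) * (ph (s, h) * lz ((n + B + h : ℕ) : ℤ)) := by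
        intro h _
        have := hph2 (s, h)
        simp only at this
        rw [← this, mul_sum]
        apply sum_congr rfl
        intro n _
        ring
      rw [sum_congr rfl h2, sum_comm]
      apply sum_congr rfl
      intro n _
      rw [mul_sum]
    have h3 : ∑ h ∈ Icc 1 H, ‖∑ n ∈ Icc 1 N, b s n * (LP (fun i => a i + s i) n : ℂ) * lz ((n + B + h : ℕ) : ℤ)‖ =
        ‖((∑ h ∈ Icc 1 H, ‖∑ n ∈ Icc 1 N, b s n * (LP (fun i => a i + s i) n : ℂ) * lz ((n + B + h : ℕ) : ℤ)‖ : ℝ) : ℂ)‖ := by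
      rw [Complex.norm_real, Real.norm_eq_abs, abs_of_nonneg h0]
    rw [h3, h1]
    refine (norm_sum_le _ _).trans (sum_le_sum fun n _ => ?_)
    rw [norm_mul, norm_mul, Complex.norm_real, Real.norm_eq_abs, abs_of_nonneg (LP_nonneg _ n), hG]
    apply mul_le_mul_of_nonneg_right _ (norm_nonneg _)
    exact mul_le_of_le_one_left (LP_nonneg _ n) (hb s n)
  have hGB : ∀ s n, G s n ≤ H := by
    intro s n
    rw [hG]
    refine (norm_sum_le _ _).trans ?_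
    have h1 : ∀ h ∈ Icc 1 H, ‖ph (s, h) * lz ((n + B + h : ℕ) : ℤ)‖ ≤ 1 := by
      intro h _
      rw [norm_mul]
      exact mul_le_one₀ (hph1 _) (norm_nonneg _) (lz_norm _)
    refine (sum_le_sum h1).trans ?_
    rw [sum_const, nsmul_eq_mul, mul_one, Nat.card_Icc, Nat.add_sub_cancel]
  have hRRA : ∀ (s : Fin k → ℕ) (n : ℕ), RR (fun i => a i + s i) z (n : ℤ) = RA α s z ((n + B : ℕ) : ℤ) := by
    intro s n
    unfold RR RA
    have e : Rough (cz (fun i => a i + s i) 0) z (n : ℤ) ↔ Rough (ca α s 0) z ((n + B : ℕ) : ℤ) := by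
      rw [rough_Rg, rough_Rg]
      have e2 : ∀ i, (n : ℤ) + cz (fun i => a i + s i) 0 i = ((n + B : ℕ) : ℤ) + ca α s 0 i := by
        intro i
        unfold cz ca
        rw [hα]
        push_cast
        ring
      constructor
      · intro h i
        rw [← e2]
        exact h i
      · intro h i
        rw [e2]
        exact h i
    by_cases h : Rough (cz (fun i => a i + s i) 0) z (n : ℤ)
    · rw [if_pos h, if_pos (e.1 h)]
    · rw [if_neg h, if_neg (fun h2 => h (e.2 h2))]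
  have hH0 : (0 : ℝ) ≤ H := Nat.cast_nonneg _
  have hstep2 : ∀ s ∈ Ta k R α, ∑ n ∈ Icc 1 N, LP (fun i => a i + s i) n * G s n ≤
      (Real.log (3 * N : ℕ)) ^ k * ∑ n ∈ Icc 1 N, RA α s z ((n + B : ℕ) : ℤ) * G s n + H * (ε / 2 * N) := by
    intro s hs
    have h1 := LP_sum (fun i => a i + s i) z N (3 * N) (fun n hn i => by
      have := ((mem_Ta.1 hs).1 i).2
      have := (mem_Icc.1 hn).2
      have := ha i
      omega) (fun n => G s n) H (fun n => hG0 s n) (fun n => hGB s n) (by omega)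
    simp only [hRRA] at h1
    refine h1.trans (add_le_add le_rfl ?_)
    have h2 := herr N (by omega)
    rw [← hz] at h2
    have h3 := mul_le_mul_of_nonneg_left h2 hH0
    refine le_trans (le_of_eq ?_) h3
    ring
  have hLk0 : 0 ≤ (Real.log (3 * N : ℕ)) ^ k := by
    apply pow_nonneg
    apply Real.log_nonneg
    exact_mod_cast (by omega : 1 ≤ 3 * N)
  have hmono : ∑ s ∈ Ta k R α, ∑ n ∈ Icc 1 N, RA α s z ((n + B : ℕ) : ℤ) * G s n ≤
      ε / 24 * (H * (((R : ℝ) / Real.log ((12 * N : ℕ) : ℝ)) ^ k * ((12 * N : ℕ) : ℝ))) := by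
    refine le_trans (sum_le_sum fun s _ => ?_) key
    have e : ∑ n ∈ Icc 1 N, RA α s z ((n + B : ℕ) : ℤ) * G s n =
        ∑ n ∈ (Icc 1 N).image (fun n => n + B), RA α s z (n : ℤ) * ‖∑ h ∈ Icc 1 H, ph (s, h) * lz ((n + h : ℕ) : ℤ)‖ := by
      rw [sum_image (fun x _ y _ hxy => by simpa using hxy), hG]
    rw [e]
    apply sum_le_sum_of_subset_of_nonneg
    · intro n hn
      rw [mem_image] at hn
      obtain ⟨m, hm, rfl⟩ := hn
      rw [mem_Icc] at hm ⊢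
      omega
    · intro n _ _
      exact mul_nonneg (RA_nonneg α s z _) (norm_nonneg _)
  calc ∑ s ∈ Ta k R α, ∑ h ∈ Icc 1 H, ‖∑ n ∈ Icc 1 N, b s n * (LP (fun i => a i + s i) n : ℂ) * lz ((n + B + h : ℕ) : ℤ)‖ ≤
        ∑ s ∈ Ta k R α, ((Real.log (3 * N : ℕ)) ^ k * ∑ n ∈ Icc 1 N, RA α s z ((n + B : ℕ) : ℤ) * G s n +
          H * (ε / 2 * N)) := sum_le_sum fun s hs => (hstep s hs).trans (hstep2 s hs)
    _ = (Real.log (3 * N : ℕ)) ^ k * ∑ s ∈ Ta k R α, ∑ n ∈ Icc 1 N, RA α s z ((n + B : ℕ) : ℤ) * G s n +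
          (Ta k R α).card * (H * (ε / 2 * N)) := by
        rw [sum_add_distrib, ← mul_sum, sum_const, nsmul_eq_mul]
    _ ≤ (Real.log (3 * N : ℕ)) ^ k * (ε / 24 * (H * (((R : ℝ) / Real.log ((12 * N : ℕ) : ℝ)) ^ k * ((12 * N : ℕ) : ℝ)))) +
          (R : ℝ) ^ k * (H * (ε / 2 * N)) := by
        apply add_le_add
        · exact mul_le_mul_of_nonneg_left hmono hLk0
        · exact mul_le_mul_of_nonneg_right (card_Ta k R α) (by positivity)
    _ ≤ ε / 2 * ((R : ℝ) ^ k * H * N) + ε / 2 * ((R : ℝ) ^ k * H * N) := by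
        apply add_le_add
        · have hl12 : 0 < Real.log ((12 * N : ℕ) : ℝ) := by
            apply Real.log_pos
            exact_mod_cast (by omega : 1 < 12 * N)
          have hl2 : Real.log (3 * N : ℕ) ≤ Real.log ((12 * N : ℕ) : ℝ) := by
            apply Real.log_le_log
            · exact_mod_cast (by omega : 0 < 3 * N)
            · exact_mod_cast (by omega : 3 * N ≤ 12 * N)
          have hl20 : 0 ≤ Real.log (3 * N : ℕ) := Real.log_nonneg (by exact_mod_cast (by omega : 1 ≤ 3 * N))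
          have h1 : (Real.log (3 * N : ℕ)) ^ k * ((R : ℝ) / Real.log ((12 * N : ℕ) : ℝ)) ^ k ≤ (R : ℝ) ^ k := by
            rw [← mul_pow]
            apply pow_le_pow_left₀ (by positivity)
            rw [mul_div_assoc', div_le_iff₀ hl12, mul_comm]
            exact mul_le_mul_of_nonneg_left hl2 hR0.le
          have h2 : (0 : ℝ) ≤ ε / 24 * (H * ((12 * N : ℕ) : ℝ)) := by positivity
          have h3 := mul_le_mul_of_nonneg_right h1 h2
          calc _ = (Real.log (3 * N : ℕ)) ^ k * ((R : ℝ) / Real.log ((12 * N : ℕ) : ℝ)) ^ k * (ε / 24 * (H * ((12 * N : ℕ) : ℝ))) := by ring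
            _ ≤ (R : ℝ) ^ k * (ε / 24 * (H * ((12 * N : ℕ) : ℝ))) := h3
            _ = _ := by
              push_cast
              ring
        · apply le_of_eq
          ring
    _ = _ := by ring

end Pool.Agent.H526.FD
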