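import Mathlib
import Pool.Agent.H526.FD.A7
import Pool.Agent.H526.FC.P13

set_option autoImplicit false

/-! Windows of bounded length and coloured configurations seen from a base point, with a phase. -/

namespace Pool.Agent.H526.FD
open Finset Filter Topology
open Pool.Agent.H526.FC
open Pool.Agent.H373R2.T7 (pz mem_pz)
open Pool.Agent.E8helper16.SL (lz lM lz_norm mrt log_tendsto Rough)

section conf
variable {a : ℕ}

/-- the coefficients given by a coloured tuple and a residue class, with a phase -/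
noncomputable def ccE {f : ℕ} (q L B : ℕ) (Φ : ℕ → Finset (ℤ × Fin a) → ℂ) (E : ℕ → ℂ) (e : (Fin f → Fin a) × Fin q) (s : Fin f → ℕ) (h : ℕ) : ℂ :=
  cc q L B Φ e s h * E h

lemma ccE_norm {f : ℕ} (q L B : ℕ) (Φ : ℕ → Finset (ℤ × Fin a) → ℂ) (hΦ : ∀ r S, ‖Φ r S‖ ≤ 1) (E : ℕ → ℂ) (hE : ∀ n, ‖E n‖ ≤ 1)
    (e : (Fin f → Fin a) × Fin q) (s : Fin f → ℕ) (h : ℕ) : ‖ccE q L B Φ E e s h‖ ≤ 1 := by
  unfold ccE
  rw [norm_mul]
  exact mul_le_one₀ (cc_norm q L B Φ hΦ e s h) (norm_nonneg _) (hE h)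

/-- the sum over the window -/
noncomputable def TmE (q L B z : ℕ) (χ : ℤ → Fin a) (Φ : ℕ → Finset (ℤ × Fin a) → ℂ) (E : ℕ → ℂ) (m : ℕ) : ℂ :=
  ∑ h ∈ Icc 1 (2 * L + B), ((if L < h ∧ h ≤ L + B then Φ ((m + h) % q) (cz1 L z χ ((m + h : ℕ) : ℤ)) else 0) * E h) * lz ((m + h : ℕ) : ℤ)

lemma TmE_eq {f : ℕ} {q L B z m : ℕ} (hq : 1 ≤ q) (χ : ℤ → Fin a) (Φ : ℕ → Finset (ℤ × Fin a) → ℂ) (E : ℕ → ℂ) (s : Fin f → ℕ)
    (hs : ∀ x, x ∈ Sm (2 * L + B) z m ↔ ∃ i, s i = x) :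
    TmE q L B z χ Φ E m = ∑ h ∈ Icc 1 (2 * L + B), ccE q L B Φ E ((fun i => χ ((m : ℤ) + s i)), ⟨m % q, Nat.mod_lt _ (by omega)⟩) s h *
      lz ((m + h : ℕ) : ℤ) := by
  unfold TmE
  apply sum_congr rfl
  intro h _
  congr 1
  unfold ccE
  congr 1
  unfold cc
  split_ifs with hh
  · rw [conf_eq χ s hs hh.1 hh.2]
    congr 1
    simp only [Nat.mod_add_mod]
  · rfl

/-- the windows with exactly `f` rough integers -/
lemma TmE_sum {f : ℕ} {q L B z N : ℕ} (hq : 1 ≤ q) (χ : ℤ → Fin a) (Φ : ℕ → Finset (ℤ × Fin a) → ℂ) (E : ℕ → ℂ) :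
    ∑ m ∈ (Icc 1 N).filter (fun m => (Sm (2 * L + B) z m).card = f), ‖TmE q L B z χ Φ E m‖ ≤
      ∑ e : (Fin f → Fin a) × Fin q, ∑ s ∈ Tf f (2 * L + B), ∑ m ∈ Icc 1 N, RR s z m *
        ‖∑ h ∈ Icc 1 (2 * L + B), ccE q L B Φ E e s h * lz ((m + h : ℕ) : ℤ)‖ := by
  classical
  have h1 : ∀ m ∈ (Icc 1 N).filter (fun m => (Sm (2 * L + B) z m).card = f), ‖TmE q L B z χ Φ E m‖ ≤
      ∑ e : (Fin f → Fin a) × Fin q, ∑ s ∈ Tf f (2 * L + B), RR s z m *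
        ‖∑ h ∈ Icc 1 (2 * L + B), ccE q L B Φ E e s h * lz ((m + h : ℕ) : ℤ)‖ := by
    intro m hm
    rw [mem_filter] at hm
    obtain ⟨s, hsd⟩ : ∃ s : Fin f → ℕ, s = fun i => (Sm (2 * L + B) z m).orderEmbOfFin hm.2 i := ⟨_, rfl⟩
    have hs : ∀ x, x ∈ Sm (2 * L + B) z m ↔ ∃ i, s i = x := by
      intro x
      have h2 := Finset.range_orderEmbOfFin (Sm (2 * L + B) z m) hm.2
      rw [← mem_coe, ← h2, Set.mem_range, hsd]
    have hsT : s ∈ Tf f (2 * L + B) := by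
      rw [mem_Tf]
      refine ⟨fun k => ?_, ?_⟩
      · have := (hs (s k)).2 ⟨k, rfl⟩
        unfold Sm at this
        rw [mem_filter, mem_Icc] at this
        exact this.1
      · rw [hsd]
        exact ((Sm (2 * L + B) z m).orderEmbOfFin hm.2).injective
    have hRR : RR s z m = 1 := by
      unfold RR
      rw [if_pos]
      rw [rough_Rg]
      intro i
      have := (hs (s i)).2 ⟨i, rfl⟩
      unfold Sm at this
      rw [mem_filter] at this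
      have e : cz s 0 i = (s i : ℤ) := by
        unfold cz
        ring
      rw [e]
      exact this.2
    obtain ⟨e0, he0⟩ : ∃ e0 : (Fin f → Fin a) × Fin q, e0 = ((fun i => χ ((m : ℤ) + s i)), ⟨m % q, Nat.mod_lt _ (by omega)⟩) := ⟨_, rfl⟩
    have key := TmE_eq hq χ Φ E s hs
    rw [← he0] at key
    obtain ⟨G, hG⟩ : ∃ G : (Fin f → Fin a) × Fin q → (Fin f → ℕ) → ℝ, G = fun e s => RR s z m *
        ‖∑ h ∈ Icc 1 (2 * L + B), ccE q L B Φ E e s h * lz ((m + h : ℕ) : ℤ)‖ := ⟨_, rfl⟩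
    have hG0 : ∀ e s, 0 ≤ G e s := by
      intro e s
      rw [hG]
      exact mul_nonneg (RR_nonneg s z m) (norm_nonneg _)
    have e1 : ‖TmE q L B z χ Φ E m‖ = G e0 s := by
      rw [hG]
      simp only
      rw [hRR, one_mul, key]
    have e2 : G e0 s ≤ ∑ s ∈ Tf f (2 * L + B), G e0 s := single_le_sum (fun s _ => hG0 e0 s) hsT
    have e3 : ∑ s ∈ Tf f (2 * L + B), G e0 s ≤ ∑ e : (Fin f → Fin a) × Fin q, ∑ s ∈ Tf f (2 * L + B), G e s :=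
      single_le_sum (f := fun e => ∑ s ∈ Tf f (2 * L + B), G e s) (fun e _ => sum_nonneg fun s _ => hG0 e s) (mem_univ e0)
    rw [e1]
    refine (e2.trans e3).trans (le_of_eq ?_)
    rw [hG]
  refine (sum_le_sum h1).trans ?_
  refine (sum_le_sum_of_subset_of_nonneg (filter_subset _ _) (fun m _ _ => ?_)).trans (le_of_eq ?_)
  · exact sum_nonneg fun e _ => sum_nonneg fun s _ => mul_nonneg (RR_nonneg s z m) (norm_nonneg _)
  · rw [sum_comm]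
    apply sum_congr rfl
    intro e _
    rw [sum_comm]

lemma TmE_le (q L B z : ℕ) (χ : ℤ → Fin a) (Φ : ℕ → Finset (ℤ × Fin a) → ℂ) (hΦ : ∀ r S, ‖Φ r S‖ ≤ 1) (E : ℕ → ℂ)
    (hE : ∀ n, ‖E n‖ ≤ 1) (m : ℕ) : ‖TmE q L B z χ Φ E m‖ ≤ B := by
  classical
  unfold TmE
  have e : ∑ h ∈ Icc 1 (2 * L + B), ((if L < h ∧ h ≤ L + B then Φ ((m + h) % q) (cz1 L z χ ((m + h : ℕ) : ℤ)) else 0) * E h) * lz ((m + h : ℕ) : ℤ) =
      ∑ h ∈ (Icc 1 (2 * L + B)).filter (fun h => L < h ∧ h ≤ L + B), (Φ ((m + h) % q) (cz1 L z χ ((m + h : ℕ) : ℤ)) * E h) * lz ((m + h : ℕ) : ℤ) := by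
    rw [sum_filter]
    apply sum_congr rfl
    intro h _
    split_ifs
    · rfl
    · rw [zero_mul, zero_mul]
  rw [e]
  refine (norm_sum_le _ _).trans ?_
  have h1 : ∀ h ∈ (Icc 1 (2 * L + B)).filter (fun h => L < h ∧ h ≤ L + B),
      ‖(Φ ((m + h) % q) (cz1 L z χ ((m + h : ℕ) : ℤ)) * E h) * lz ((m + h : ℕ) : ℤ)‖ ≤ 1 := by
    intro h _
    rw [norm_mul, norm_mul]
    exact mul_le_one₀ (mul_le_one₀ (hΦ _ _) (norm_nonneg _) (hE _)) (norm_nonneg _) (lz_norm _)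
  refine (sum_le_sum h1).trans ?_
  rw [sum_const, nsmul_eq_mul, mul_one]
  have h2 : (Icc 1 (2 * L + B)).filter (fun h => L < h ∧ h ≤ L + B) ⊆ Ioc L (L + B) := by
    intro h hh
    rw [mem_filter] at hh
    exact mem_Ioc.2 hh.2
  have h3 := card_le_card h2
  rw [Nat.card_Ioc] at h3
  have h4 : ((Icc 1 (2 * L + B)).filter (fun h => L < h ∧ h ≤ L + B)).card ≤ B := by omega
  exact_mod_cast h4

/-- the sum over the base points, according to the number of the rough integers -/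
lemma split_sumE {q L B z N K : ℕ} (hq : 1 ≤ q) (χ : ℤ → Fin a) (Φ : ℕ → Finset (ℤ × Fin a) → ℂ) (hΦ : ∀ r S, ‖Φ r S‖ ≤ 1)
    (E : ℕ → ℂ) (hE : ∀ n, ‖E n‖ ≤ 1) (X : ℝ)
    (hX : ∀ f < K, ∀ e : (Fin f → Fin a) × Fin q, ∑ s ∈ Tf f (2 * L + B), ∑ m ∈ Icc 1 N, RR s z m *
        ‖∑ h ∈ Icc 1 (2 * L + B), ccE q L B Φ E e s h * lz ((m + h : ℕ) : ℤ)‖ ≤ X) (Y : ℝ)
    (hY : ∑ s ∈ Tf 1 (2 * L + B), ∑ m ∈ Icc 1 N, RR s z m ≤ Y) :
    K * ∑ m ∈ Icc 1 N, ‖TmE q L B z χ Φ E m‖ ≤ K * ((∑ f ∈ range K, ((a ^ f * q : ℕ) : ℝ)) * X) + B * Y := by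
  classical
  rw [← sum_filter_add_sum_filter_not (Icc 1 N) (fun m => K ≤ (Sm (2 * L + B) z m).card), mul_add, add_comm]
  apply add_le_add
  · apply mul_le_mul_of_nonneg_left _ (Nat.cast_nonneg K)
    have hmaps : ∀ m ∈ (Icc 1 N).filter (fun m => ¬ K ≤ (Sm (2 * L + B) z m).card), (Sm (2 * L + B) z m).card ∈ range K := by
      intro m hm
      rw [mem_filter] at hm
      rw [mem_range]
      omega
    rw [← sum_fiberwise_of_maps_to hmaps, sum_mul]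
    apply sum_le_sum
    intro f hf
    rw [mem_range] at hf
    have h1 : ∑ m ∈ ((Icc 1 N).filter (fun m => ¬ K ≤ (Sm (2 * L + B) z m).card)) with (Sm (2 * L + B) z m).card = f, ‖TmE q L B z χ Φ E m‖ ≤
        ∑ m ∈ (Icc 1 N).filter (fun m => (Sm (2 * L + B) z m).card = f), ‖TmE q L B z χ Φ E m‖ := by
      apply sum_le_sum_of_subset_of_nonneg
      · intro m hm
        rw [mem_filter, mem_filter] at hm
        exact mem_filter.2 ⟨hm.1.1, hm.2⟩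
      · intro _ _ _
        exact norm_nonneg _
    refine h1.trans ((TmE_sum hq χ Φ E).trans ((sum_le_sum fun e _ => hX f hf e).trans (le_of_eq ?_)))
    rw [sum_const, card_univ, Fintype.card_prod, Fintype.card_fun, Fintype.card_fin, Fintype.card_fin, Fintype.card_fin, nsmul_eq_mul]
  · have h1 : ∑ m ∈ (Icc 1 N).filter (fun m => K ≤ (Sm (2 * L + B) z m).card), ‖TmE q L B z χ Φ E m‖ ≤
        B * (((Icc 1 N).filter (fun m => K ≤ (Sm (2 * L + B) z m).card)).card : ℝ) := by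
      refine (sum_le_sum fun m _ => TmE_le q L B z χ Φ hΦ E hE m).trans (le_of_eq ?_)
      rw [sum_const, nsmul_eq_mul, mul_comm]
    have h2 := (many (H := 2 * L + B) (z := z) (N := N) (K := K)).trans hY
    have h3 := mul_le_mul_of_nonneg_left h2 (Nat.cast_nonneg B : (0 : ℝ) ≤ B)
    have h4 := mul_le_mul_of_nonneg_left h1 (Nat.cast_nonneg K : (0 : ℝ) ≤ K)
    refine h4.trans (le_trans (le_of_eq ?_) h3)
    ring

lemma TmE_W (q L B z : ℕ) (χ : ℤ → Fin a) (Φ : ℕ → Finset (ℤ × Fin a) → ℂ) (E : ℕ → ℂ) (m : ℕ) :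
    TmE q L B z χ Φ E m = ∑ h ∈ Ioc L (L + B), Wf q L z χ Φ (m + h) * E h := by
  classical
  unfold TmE
  have hsub : Ioc L (L + B) ⊆ Icc 1 (2 * L + B) := by
    intro h hh
    rw [mem_Ioc] at hh
    rw [mem_Icc]
    omega
  rw [← sum_subset hsub]
  · apply sum_congr rfl
    intro h hh
    rw [mem_Ioc] at hh
    rw [if_pos hh]
    unfold Wf
    ring
  · intro h _ hh
    rw [mem_Ioc] at hh
    rw [if_neg hh, zero_mul, zero_mul]

/-- the sum with the phase and the slowly varying factor -/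
lemma main_bdE {q L B z N K : ℕ} (hq : 1 ≤ q) (hK : 1 ≤ K) (hLB : L + B ≤ N) (χ : ℤ → Fin a) (Φ : ℕ → Finset (ℤ × Fin a) → ℂ)
    (hΦ : ∀ r S, ‖Φ r S‖ ≤ 1) (ω : ℂ) (hω : ‖ω‖ ≤ 1) (Ψ : ℕ → ℂ) (hΨ : ∀ n, ‖Ψ n‖ ≤ 1) (X : ℝ)
    (hX : ∀ f < K, ∀ e : (Fin f → Fin a) × Fin q, ∑ s ∈ Tf f (2 * L + B), ∑ m ∈ Icc 1 N, RR s z m *
        ‖∑ h ∈ Icc 1 (2 * L + B), ccE q L B Φ (fun n => ω ^ n) e s h * lz ((m + h : ℕ) : ℤ)‖ ≤ X) (Y : ℝ)
    (hY : ∑ s ∈ Tf 1 (2 * L + B), ∑ m ∈ Icc 1 N, RR s z m ≤ Y) :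
    (B : ℝ) * ‖∑ n ∈ Icc 1 N, (Wf q L z χ Φ n * ω ^ n) * Ψ n‖ ≤ B * (L + B) + (B * (B * ∑ n ∈ Icc 1 N, ‖Ψ (n + 1) - Ψ n‖) +
      ((∑ f ∈ range K, ((a ^ f * q : ℕ) : ℝ)) * X + B * Y / K)) := by
  have hE : ∀ n : ℕ, ‖ω ^ n‖ ≤ 1 := fun n => by
    rw [norm_pow]
    exact pow_le_one₀ (norm_nonneg _) hω
  obtain ⟨W, hWd⟩ : ∃ W : ℕ → ℂ, W = fun n => Wf q L z χ Φ n * ω ^ n := ⟨_, rfl⟩
  have hW : ∀ n, ‖W n‖ ≤ 1 := by
    intro n
    rw [hWd, norm_mul]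
    exact mul_le_one₀ (Wf_norm q L z χ Φ hΦ n) (norm_nonneg _) (hE n)
  have hF : ∀ n, ‖W n * Ψ n‖ ≤ 1 := by
    intro n
    rw [norm_mul]
    exact mul_le_one₀ (hW n) (norm_nonneg _) (hΨ n)
  have hgoal : ∑ n ∈ Icc 1 N, (Wf q L z χ Φ n * ω ^ n) * Ψ n = ∑ n ∈ Icc 1 N, W n * Ψ n := by rw [hWd]
  rw [hgoal]
  have h1 := avg_base (fun n => W n * Ψ n) hF N L B hLB
  have h2 := freeze W hW Ψ N L B hLB
  have h3 := split_sumE hq χ Φ hΦ (fun n => ω ^ n) hE X hX Y hY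
  have hKp : (0 : ℝ) < K := by exact_mod_cast hK
  have h4 : ∑ m ∈ Icc 1 N, ‖TmE q L B z χ Φ (fun n => ω ^ n) m‖ ≤ (∑ f ∈ range K, ((a ^ f * q : ℕ) : ℝ)) * X + B * Y / K := by
    apply le_of_mul_le_mul_left _ hKp
    refine h3.trans (le_of_eq ?_)
    field_simp
  have h5 : ‖∑ m ∈ Icc 1 (N - (L + B)), Ψ (m + L) * ∑ h ∈ Ioc L (L + B), W (m + h)‖ ≤
      ∑ m ∈ Icc 1 N, ‖TmE q L B z χ Φ (fun n => ω ^ n) m‖ := by
    refine (norm_sum_le _ _).trans ?_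
    have h6 : ∀ m ∈ Icc 1 (N - (L + B)), ‖Ψ (m + L) * ∑ h ∈ Ioc L (L + B), W (m + h)‖ ≤ ‖TmE q L B z χ Φ (fun n => ω ^ n) m‖ := by
      intro m _
      have e : ∑ h ∈ Ioc L (L + B), W (m + h) = ω ^ m * TmE q L B z χ Φ (fun n => ω ^ n) m := by
        rw [TmE_W, mul_sum, hWd]
        apply sum_congr rfl
        intro h _
        simp only
        rw [pow_add]
        ring
      rw [norm_mul, e, norm_mul]
      calc ‖Ψ (m + L)‖ * (‖ω ^ m‖ * ‖TmE q L B z χ Φ (fun n => ω ^ n) m‖) ≤ 1 * (1 * ‖TmE q L B z χ Φ (fun n => ω ^ n) m‖) := by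
            apply mul_le_mul (hΨ _) _ (by positivity) zero_le_one
            exact mul_le_mul_of_nonneg_right (hE m) (norm_nonneg _)
        _ = _ := by ring
    refine (sum_le_sum h6).trans ?_
    apply sum_le_sum_of_subset_of_nonneg
    · exact Icc_subset_Icc le_rfl (Nat.sub_le _ _)
    · intro _ _ _
      exact norm_nonneg _
  have e0 : (B : ℝ) * ‖∑ n ∈ Icc 1 N, W n * Ψ n‖ = ‖(B : ℂ) * ∑ n ∈ Icc 1 N, W n * Ψ n‖ := by
    rw [norm_mul, Complex.norm_natCast]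
  rw [e0]
  have h7 := norm_sub_norm_le ((B : ℂ) * ∑ n ∈ Icc 1 N, W n * Ψ n)
    (∑ h ∈ Ioc L (L + B), ∑ m ∈ Icc 1 (N - (L + B)), W (m + h) * Ψ (m + h))
  have h8 := norm_sub_norm_le (∑ h ∈ Ioc L (L + B), ∑ m ∈ Icc 1 (N - (L + B)), W (m + h) * Ψ (m + h))
    (∑ m ∈ Icc 1 (N - (L + B)), Ψ (m + L) * ∑ h ∈ Ioc L (L + B), W (m + h))
  linarith

end conf

end Pool.Agent.H526.FD
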