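import Mathlib
import Pool.Agent.H526.FD.A9

set_option autoImplicit false

/-! The Liouville function and the coloured configurations of the rough integers: windows of bounded length. -/

namespace Pool.Agent.H526.FD
open Finset Filter Topology
open Pool.Agent.H526.FC
open Pool.Agent.H373R2.T7 (pz mem_pz)
open Pool.Agent.E8helper16.SL (lz lM lz_norm mrt log_tendsto Rough)

/-- no rough integer; windows of any length from a constant on -/
theorem core0' (ε : ℝ) (hε : 0 < ε) : ∃ J₀ M₀ : ℕ, ∀ N H : ℕ, M₀ ≤ N → J₀ + 1 ≤ H → 4 * H ≤ N →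
    ∀ c : ℕ → ℂ, (∀ h, ‖c h‖ ≤ 1) →
      ∑ n ∈ Icc 1 N, ‖∑ h ∈ Icc 1 H, c h * lz ((n + h : ℕ) : ℤ)‖ ≤ ε * (H * N) := by
  classical
  obtain ⟨J₀, M₀, hmrt⟩ := mrt (ε / 4) (by positivity)
  refine ⟨J₀, M₀ + 4, fun N H hN hHJ' hHN' c hc => ?_⟩
  choose g hg1 hg2 using fun n : ℕ => phase (∑ h ∈ Icc 1 H, c h * lz ((n + h : ℕ) : ℤ))
  obtain ⟨g', hg'⟩ : ∃ g' : ℕ → ℂ, g' = fun m => if m ≤ N then g m else 0 := ⟨_, rfl⟩
  have hg'1 : ∀ n, ‖g' n‖ ≤ 1 := by
    intro n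
    rw [hg']
    simp only
    split_ifs
    · exact hg1 n
    · simp
  have key := hmrt (N + H) (H + 1) (by omega) (by omega) (by omega) g' hg'1
  have e1 : ((∑ n ∈ Icc 1 N, ‖∑ h ∈ Icc 1 H, c h * lz ((n + h : ℕ) : ℤ)‖ : ℝ) : ℂ) =
      ∑ h ∈ Icc 1 H, c h * ∑ m ∈ Icc 1 (N + H), g' m * lM (N + H) (m + (h : ℤ)) := by
    rw [Complex.ofReal_sum]
    have e2 : ∀ n ∈ Icc 1 N, ((‖∑ h ∈ Icc 1 H, c h * lz ((n + h : ℕ) : ℤ)‖ : ℝ) : ℂ) =
        ∑ h ∈ Icc 1 H, c h * (g n * lz ((n + h : ℕ) : ℤ)) := by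
      intro n _
      rw [← hg2 n, mul_sum]
      apply sum_congr rfl
      intro h _
      ring
    rw [sum_congr rfl e2, sum_comm]
    apply sum_congr rfl
    intro h hh
    rw [mem_Icc] at hh
    rw [← mul_sum]
    congr 1
    have hsub : Icc 1 N ⊆ Icc 1 (N + H) := Icc_subset_Icc le_rfl (by omega)
    rw [← sum_subset hsub]
    · apply sum_congr rfl
      intro n hn
      rw [mem_Icc] at hn
      rw [hg']
      simp only [if_pos hn.2]
      unfold lM
      rw [if_pos (by push_cast; omega)]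
      congr 2
    · intro n _ hn
      rw [hg']
      have : ¬ n ≤ N := by
        intro hc2
        apply hn
        rename_i hn2
        rw [mem_Icc] at hn2 ⊢
        exact ⟨hn2.1, hc2⟩
      simp only [if_neg this, zero_mul]
  have h0 : (0 : ℝ) ≤ ∑ n ∈ Icc 1 N, ‖∑ h ∈ Icc 1 H, c h * lz ((n + h : ℕ) : ℤ)‖ := sum_nonneg fun _ _ => norm_nonneg _
  have h4 : ∑ n ∈ Icc 1 N, ‖∑ h ∈ Icc 1 H, c h * lz ((n + h : ℕ) : ℤ)‖ =
      ‖((∑ n ∈ Icc 1 N, ‖∑ h ∈ Icc 1 H, c h * lz ((n + h : ℕ) : ℤ)‖ : ℝ) : ℂ)‖ := by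
    rw [Complex.norm_real, Real.norm_eq_abs, abs_of_nonneg h0]
  rw [h4, e1]
  refine (norm_sum_le _ _).trans ?_
  have h5 : ∑ h ∈ Icc 1 H, ‖c h * ∑ m ∈ Icc 1 (N + H), g' m * lM (N + H) (m + (h : ℤ))‖ ≤
      ∑ j ∈ Ioo (-((H + 1 : ℕ) : ℤ)) ((H + 1 : ℕ) : ℤ), ‖∑ m ∈ Icc 1 (N + H), g' m * lM (N + H) (m + j)‖ := by
    calc _ ≤ ∑ h ∈ Icc 1 H, ‖∑ m ∈ Icc 1 (N + H), g' m * lM (N + H) (m + (h : ℤ))‖ := by
          apply sum_le_sum
          intro h _
          rw [norm_mul]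
          exact mul_le_of_le_one_left (norm_nonneg _) (hc h)
      _ = ∑ j ∈ (Icc 1 H).image (fun h : ℕ => (h : ℤ)), ‖∑ m ∈ Icc 1 (N + H), g' m * lM (N + H) (m + j)‖ := by
          rw [sum_image (fun a _ b _ h => by exact_mod_cast h)]
      _ ≤ _ := by
          apply sum_le_sum_of_subset_of_nonneg
          · intro j hj
            rw [mem_image] at hj
            obtain ⟨h, hh, rfl⟩ := hj
            rw [mem_Icc] at hh
            rw [mem_Ioo]
            push_cast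
            omega
          · intro _ _ _
            exact norm_nonneg _
  refine h5.trans (key.trans ?_)
  push_cast
  have hH1 : (1 : ℝ) ≤ H := by exact_mod_cast (by omega : 1 ≤ H)
  have hHN : (4 : ℝ) * H ≤ N := by exact_mod_cast hHN'
  have a1 : (H : ℝ) + 1 ≤ 2 * H := by linarith
  have a2 : (N : ℝ) + H ≤ 2 * N := by linarith
  have hN0 : (0 : ℝ) ≤ N := Nat.cast_nonneg _
  have hH0 : (0 : ℝ) ≤ H := Nat.cast_nonneg _
  calc ε / 4 * (H + 1) * (N + H) ≤ ε / 4 * (2 * H) * (2 * N) := by gcongr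
    _ = _ := by ring

/-- the core estimate for windows of bounded length next to the windows of the tuples -/
theorem coreW (f : ℕ) (θ : ℝ) (hθ : 0 < θ) (C : ℝ) (hC : 1 ≤ C) (ε : ℝ) (hε : 0 < ε) :
    ∃ B₀ : ℕ, ∀ B : ℕ, B₀ ≤ B → ∃ N₀ : ℕ, ∀ N : ℕ, N₀ ≤ N → ∀ z1 : ℕ, (N : ℝ) ^ θ ≤ z1 + 1 →
      ∀ c : (Fin f → ℕ) → ℕ → ℂ, (∀ s h, ‖c s h‖ ≤ 1) →
      (∀ s h, ¬ (⌊C * Real.log N⌋₊ < h ∧ h ≤ ⌊C * Real.log N⌋₊ + B) → c s h = 0) →
      ∑ s ∈ Tf f (2 * ⌊C * Real.log N⌋₊ + B), ∑ m ∈ Icc 1 N, RR s z1 m *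
        ‖∑ h ∈ Icc 1 (2 * ⌊C * Real.log N⌋₊ + B), c s h * lz ((m + h : ℕ) : ℤ)‖ ≤ ε * (B * N) := by
  classical
  -- the inner sum as a sum over a short window
  have inner : ∀ (L B m : ℕ) (c : ℕ → ℂ), (∀ h, ¬ (L < h ∧ h ≤ L + B) → c h = 0) →
      ∑ h ∈ Icc 1 (2 * L + B), c h * lz ((m + h : ℕ) : ℤ) = ∑ h ∈ Icc 1 B, c (L + h) * lz ((m + L + h : ℕ) : ℤ) := by
    intro L B m c hc
    have h1 : ∑ h ∈ Icc 1 B, c (L + h) * lz ((m + L + h : ℕ) : ℤ) = ∑ h ∈ (Icc 1 B).image (fun h => L + h), c h * lz ((m + h : ℕ) : ℤ) := by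
      rw [sum_image (fun x _ y _ hxy => by simpa using hxy)]
      apply sum_congr rfl
      intro h _
      rw [add_assoc]
    rw [h1]
    symm
    apply sum_subset
    · intro h hh
      rw [mem_image] at hh
      obtain ⟨h', hh', rfl⟩ := hh
      rw [mem_Icc] at hh' ⊢
      omega
    · intro h _ hh
      rw [hc h, zero_mul]
      intro h2
      apply hh
      rw [mem_image]
      exact ⟨h - L, mem_Icc.2 ⟨by omega, by omega⟩, by omega⟩
  rcases Nat.eq_zero_or_pos f with h0 | h0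
  · subst h0
    obtain ⟨J₀, M₀, h⟩ := core0' (ε / 12) (by positivity)
    refine ⟨J₀ + 1, fun B hB => ?_⟩
    have hlog := Pool.Agent.E8helper16.SL.log_pow_le C 1 1 one_pos
    obtain ⟨N₁, hN₁⟩ := eventually_atTop.1 hlog
    refine ⟨N₁ + M₀ + 4 * B + 4, fun N hN z1 _ c hc hc0 => ?_⟩
    have hL : ⌊C * Real.log N⌋₊ ≤ N := by
      have g1 := hN₁ N (by omega)
      rw [pow_one, Real.rpow_one] at g1
      exact Nat.floor_le_of_le g1
    obtain ⟨L, hLd⟩ : ∃ L, L = ⌊C * Real.log N⌋₊ := ⟨_, rfl⟩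
    rw [← hLd] at hL hc0 ⊢
    have h1 : ∀ s ∈ Tf 0 (2 * L + B), ∑ m ∈ Icc 1 N, RR s z1 m * ‖∑ h ∈ Icc 1 (2 * L + B), c s h * lz ((m + h : ℕ) : ℤ)‖ ≤ ε * (B * N) := by
      intro s _
      have h2 := h (12 * N) B (by omega) hB (by omega) (fun h => c s (L + h)) (fun h => hc s _)
      calc ∑ m ∈ Icc 1 N, RR s z1 m * ‖∑ h ∈ Icc 1 (2 * L + B), c s h * lz ((m + h : ℕ) : ℤ)‖ ≤
            ∑ m ∈ Icc 1 N, ‖∑ h ∈ Icc 1 B, c s (L + h) * lz ((m + L + h : ℕ) : ℤ)‖ := by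
            apply sum_le_sum
            intro m _
            rw [inner L B m (c s) (hc0 s)]
            exact mul_le_of_le_one_left (norm_nonneg _) (RR_le_one s z1 m)
        _ = ∑ n ∈ (Icc 1 N).image (fun m => m + L), ‖∑ h ∈ Icc 1 B, c s (L + h) * lz ((n + h : ℕ) : ℤ)‖ := by
            rw [sum_image (fun x _ y _ hxy => by simpa using hxy)]
        _ ≤ ∑ n ∈ Icc 1 (12 * N), ‖∑ h ∈ Icc 1 B, c s (L + h) * lz ((n + h : ℕ) : ℤ)‖ := by
            apply sum_le_sum_of_subset_of_nonneg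
            · intro n hn
              rw [mem_image] at hn
              obtain ⟨m, hm, rfl⟩ := hn
              rw [mem_Icc] at hm ⊢
              omega
            · intro _ _ _
              exact norm_nonneg _
        _ ≤ ε / 12 * (B * ((12 * N : ℕ) : ℝ)) := h2
        _ = _ := by
            push_cast
            ring
    refine (sum_le_sum h1).trans ?_
    rw [sum_const, nsmul_eq_mul]
    have h2 := card_Tf 0 (2 * L + B)
    rw [pow_zero] at h2
    exact mul_le_of_le_one_left (by positivity) h2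
  · obtain ⟨η, hη, hη2, A, N₁, hcore⟩ := core4 f h0 (θ / 2) (by positivity) (ε / (12 * (2 * C + 1) ^ f)) (by positivity)
    refine ⟨A * 2 ^ A, fun B hB => ?_⟩
    have hlog := Pool.Agent.E8helper16.SL.log_pow_le (2 * C + 1) 1 1 one_pos
    obtain ⟨N₂, hN₂⟩ := eventually_atTop.1 hlog
    obtain ⟨N₃, hN₃⟩ := eventually_atTop.1 (log_tendsto.eventually_ge_atTop ((B : ℝ) + 5))
    refine ⟨N₁ + N₂ + N₃ + 12, fun N hN z1 hz1 c hc hc0 => ?_⟩
    have g1 := hN₂ N (by omega)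
    have g2 := hN₃ N (by omega)
    rw [pow_one, Real.rpow_one] at g1
    have hN12r : (12 : ℝ) ≤ N := by exact_mod_cast (by omega : 12 ≤ N)
    have hN0 : (0 : ℝ) < N := by linarith
    have hB0 : (0 : ℝ) ≤ B := Nat.cast_nonneg _
    have hl0 : 0 < Real.log N := by linarith
    obtain ⟨L, hLd⟩ : ∃ L, L = ⌊C * Real.log N⌋₊ := ⟨_, rfl⟩
    have hCl : 0 ≤ C * Real.log N := by positivity
    have hL1 : (L : ℝ) ≤ C * Real.log N := by rw [hLd]; exact Nat.floor_le hCl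
    have hL2 : C * Real.log N < (L : ℝ) + 1 := by rw [hLd]; exact Nat.lt_floor_add_one _
    rw [← hLd] at hc0 ⊢
    have hRle : ((2 * L + B : ℕ) : ℝ) ≤ (2 * C + 1) * Real.log N := by
      push_cast
      have : (2 * C + 1) * Real.log N = 2 * (C * Real.log N) + Real.log N := by ring
      rw [this]
      linarith
    have hRN : 2 * L + B ≤ N := by
      have : ((2 * L + B : ℕ) : ℝ) ≤ N := hRle.trans g1
      exact_mod_cast this
    have hlog12 : Real.log ((12 * N : ℕ) : ℝ) ≤ Real.log N + 3 := by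
      push_cast
      rw [Real.log_mul (by norm_num) (by positivity)]
      have : Real.log 12 ≤ 3 := by
        have e1 : (12 : ℝ) ≤ Real.exp 3 := by
          have h3 : Real.exp 3 = Real.exp 1 ^ 3 := by
            rw [← Real.exp_nat_mul]
            norm_num
          rw [h3]
          have h4 := Real.exp_one_gt_d9
          calc (12 : ℝ) ≤ (2.7182818283 : ℝ) ^ 3 := by norm_num
            _ ≤ Real.exp 1 ^ 3 := pow_le_pow_left₀ (by norm_num) h4.le 3
        exact (Real.log_le_iff_le_exp (by norm_num)).2 e1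
      linarith
    have hlogle : Real.log N ≤ Real.log ((12 * N : ℕ) : ℝ) := by
      apply Real.log_le_log hN0
      push_cast
      linarith
    have hl12 : 0 < Real.log ((12 * N : ℕ) : ℝ) := by linarith
    have hRge : Real.log ((12 * N : ℕ) : ℝ) ≤ ((2 * L + B : ℕ) : ℝ) := by
      have e : ((2 * L + B : ℕ) : ℝ) = 2 * L + B := by push_cast; ring
      rw [e]
      have : Real.log N ≤ C * Real.log N := le_mul_of_one_le_left hl0.le hC
      linarith
    have hR0 : (0 : ℝ) < ((2 * L + B : ℕ) : ℝ) := lt_of_lt_of_le hl12 hRge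
    have hc1 : Real.log ((12 * N : ℕ) : ℝ) ^ (1 - η) ≤ ((2 * L + B : ℕ) : ℝ) := by
      refine le_trans ?_ hRge
      calc Real.log ((12 * N : ℕ) : ℝ) ^ (1 - η) ≤ Real.log ((12 * N : ℕ) : ℝ) ^ (1 : ℝ) :=
            Real.rpow_le_rpow_of_exponent_le (by linarith) (by linarith)
        _ = _ := Real.rpow_one _
    have hc2 : (A : ℝ) * (1 + Real.log ((12 * N : ℕ) : ℝ) / ((2 * L + B : ℕ) : ℝ)) ^ A ≤ B := by
      have h1 : 1 + Real.log ((12 * N : ℕ) : ℝ) / ((2 * L + B : ℕ) : ℝ) ≤ 2 := by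
        have : Real.log ((12 * N : ℕ) : ℝ) / ((2 * L + B : ℕ) : ℝ) ≤ 1 := by
          rw [div_le_one hR0]
          exact hRge
        linarith
      have h2 := pow_le_pow_left₀ (by positivity) h1 A
      have h3 : ((A * 2 ^ A : ℕ) : ℝ) ≤ B := by exact_mod_cast hB
      push_cast at h3
      exact (mul_le_mul_of_nonneg_left h2 (Nat.cast_nonneg _)).trans h3
    have hα : ∀ i : Fin f, |(fun _ : Fin f => (L : ℤ)) i| ≤ ((12 * N : ℕ) : ℤ) := by
      intro i
      show |(L : ℤ)| ≤ _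
      rw [abs_le]
      push_cast
      constructor <;> omega
    have hz12 : ((12 * N : ℕ) : ℝ) ^ (θ / 2) ≤ z1 + 1 := by
      refine le_trans ?_ hz1
      have e1 : (N : ℝ) ^ θ = (N : ℝ) ^ (θ / 2) * (N : ℝ) ^ (θ / 2) := by
        rw [← Real.rpow_add hN0]
        congr 1
        ring
      push_cast
      rw [Real.mul_rpow (by norm_num) hN0.le, e1]
      apply mul_le_mul_of_nonneg_right _ (Real.rpow_nonneg hN0.le _)
      exact Real.rpow_le_rpow (by norm_num) hN12r (by positivity)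
    have key := hcore (12 * N) (by omega) (2 * L + B) B (by omega) (by omega) hc1 hc2 (fun _ => (L : ℤ)) hα z1 hz12
      (fun s h => c s (L + h)) (fun s h => hc s _)
    have hTT : Tf f (2 * L + B) = Ta f (2 * L + B) (fun _ => (L : ℤ)) := by
      ext s
      rw [mem_Tf, mem_Ta]
      constructor
      · rintro ⟨h1, h2⟩
        refine ⟨h1, fun i j hij => h2 ?_⟩
        simp only at hij
        omega
      · rintro ⟨h1, h2⟩
        refine ⟨h1, fun i j hij => h2 ?_⟩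
        simp only
        rw [hij]
    have hRRA : ∀ (s : Fin f → ℕ) (m : ℕ), RR s z1 (m : ℤ) = RA (fun _ => (L : ℤ)) s z1 ((m + L : ℕ) : ℤ) := by
      intro s m
      unfold RR RA
      have e : Rough (cz s 0) z1 (m : ℤ) ↔ Rough (ca (fun _ => (L : ℤ)) s 0) z1 ((m + L : ℕ) : ℤ) := by
        rw [rough_Rg, rough_Rg]
        have e2 : ∀ i, (m : ℤ) + cz s 0 i = ((m + L : ℕ) : ℤ) + ca (fun _ => (L : ℤ)) s 0 i := by
          intro i
          unfold cz ca
          push_cast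
          ring
        constructor
        · intro h i
          rw [← e2]
          exact h i
        · intro h i
          rw [e2]
          exact h i
      by_cases h : Rough (cz s 0) z1 (m : ℤ)
      · rw [if_pos h, if_pos (e.1 h)]
      · rw [if_neg h, if_neg (fun h2 => h (e.2 h2))]
    have hmono : ∑ s ∈ Tf f (2 * L + B), ∑ m ∈ Icc 1 N, RR s z1 m * ‖∑ h ∈ Icc 1 (2 * L + B), c s h * lz ((m + h : ℕ) : ℤ)‖ ≤
        ε / (12 * (2 * C + 1) ^ f) * (B * ((((2 * L + B : ℕ) : ℝ) / Real.log ((12 * N : ℕ) : ℝ)) ^ f * ((12 * N : ℕ) : ℝ))) := by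
      rw [hTT]
      refine le_trans (sum_le_sum fun s _ => ?_) key
      have e : ∑ m ∈ Icc 1 N, RR s z1 m * ‖∑ h ∈ Icc 1 (2 * L + B), c s h * lz ((m + h : ℕ) : ℤ)‖ =
          ∑ n ∈ (Icc 1 N).image (fun m => m + L), RA (fun _ => (L : ℤ)) s z1 (n : ℤ) * ‖∑ h ∈ Icc 1 B, c s (L + h) * lz ((n + h : ℕ) : ℤ)‖ := by
        rw [sum_image (fun x _ y _ hxy => by simpa using hxy)]
        apply sum_congr rfl
        intro m _
        rw [inner L B m (c s) (hc0 s), hRRA]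
      rw [e]
      apply sum_le_sum_of_subset_of_nonneg
      · intro n hn
        rw [mem_image] at hn
        obtain ⟨m, hm, rfl⟩ := hn
        rw [mem_Icc] at hm ⊢
        omega
      · intro n _ _
        exact mul_nonneg (RA_nonneg _ s z1 _) (norm_nonneg _)
    refine hmono.trans ?_
    have h1 : (((2 * L + B : ℕ) : ℝ) / Real.log ((12 * N : ℕ) : ℝ)) ^ f ≤ (2 * C + 1) ^ f := by
      apply pow_le_pow_left₀ (by positivity)
      rw [div_le_iff₀ hl12]
      refine hRle.trans ?_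
      exact mul_le_mul_of_nonneg_left hlogle (by linarith)
    have hCf : (0 : ℝ) < (2 * C + 1) ^ f := by positivity
    calc ε / (12 * (2 * C + 1) ^ f) * (B * ((((2 * L + B : ℕ) : ℝ) / Real.log ((12 * N : ℕ) : ℝ)) ^ f * ((12 * N : ℕ) : ℝ))) ≤
          ε / (12 * (2 * C + 1) ^ f) * (B * ((2 * C + 1) ^ f * ((12 * N : ℕ) : ℝ))) := by gcongr
      _ = _ := by
        push_cast
        field_simp

end Pool.Agent.H526.FD
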