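import Mathlib
import Pool.Agent.H526.FD.B1

set_option autoImplicit false

/-! The Liouville function and the coloured configurations of the rough integers, against slowly varying factors whose
total variation is a small multiple of `N`: the end. -/

namespace Pool.Agent.H526.FD
open Finset Filter Topology
open Pool.Agent.H526.FC
open Pool.Agent.H373R2.T7 (pz mem_pz)
open Pool.Agent.E8helper16.SL (lz lM lz_norm mrt log_tendsto Rough)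

theorem fin4 (θ C ε : ℝ) (hθ : 0 < θ) (hC : 1 ≤ C) (hε : 0 < ε) (a q : ℕ) (hq : 1 ≤ q) : ∃ δ : ℝ, 0 < δ ∧ ∃ N₀ : ℕ, ∀ N : ℕ, N₀ ≤ N →
    ∀ (χ : ℤ → Fin a) (Φ : ℕ → Finset (ℤ × Fin a) → ℂ) (ω : ℂ) (Ψ : ℕ → ℂ), (∀ r S, ‖Φ r S‖ ≤ 1) → ‖ω‖ ≤ 1 → (∀ n, ‖Ψ n‖ ≤ 1) →
    ∑ n ∈ Icc 1 N, ‖Ψ (n + 1) - Ψ n‖ ≤ δ * N →
    ‖∑ n ∈ Icc 1 N, (Wf q ⌊C * Real.log N⌋₊ ⌊(N : ℝ) ^ θ⌋₊ χ Φ n * ω ^ n) * Ψ n‖ ≤ ε * N := by
  classical
  obtain ⟨C6, hC6, N₂, hRR⟩ := RR_sum 1 le_rfl θ hθ (2 * C + 1) (by linarith)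
  obtain ⟨K, hKd⟩ : ∃ K : ℕ, K = ⌈8 * C6 / ε⌉₊ + 1 := ⟨_, rfl⟩
  have hK1 : 1 ≤ K := by omega
  have hKC : 8 * C6 ≤ ε * K := by
    have h1 : 8 * C6 / ε ≤ K := by
      refine (Nat.le_ceil _).trans ?_
      rw [hKd]
      push_cast
      linarith
    rw [div_le_iff₀ hε] at h1
    linarith
  obtain ⟨Eq, hEqd⟩ : ∃ Eq : ℝ, Eq = ∑ f ∈ range K, ((a ^ f * q : ℕ) : ℝ) := ⟨_, rfl⟩
  have hEq0 : 0 ≤ Eq := by
    rw [hEqd]
    exact sum_nonneg fun _ _ => Nat.cast_nonneg _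
  obtain ⟨ε', hε'd⟩ : ∃ ε' : ℝ, ε' = ε / (8 * (Eq + 1)) := ⟨_, rfl⟩
  have hε'0 : 0 < ε' := by rw [hε'd]; positivity
  choose Bf hBf using fun f : ℕ => coreW f θ hθ C hC ε' hε'0
  obtain ⟨B, hBd⟩ : ∃ B : ℕ, B = ∑ f ∈ range K, Bf f + 1 := ⟨_, rfl⟩
  have hB1 : 1 ≤ B := by omega
  have hBle : ∀ f ∈ range K, Bf f ≤ B := by
    intro f hf
    have : Bf f ≤ ∑ f ∈ range K, Bf f := single_le_sum (fun _ _ => Nat.zero_le _) hf
    omega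
  have hBr : (1 : ℝ) ≤ B := by exact_mod_cast hB1
  have hex : ∀ f : ℕ, ∃ Nf : ℕ, f ∈ range K → ∀ N : ℕ, Nf ≤ N → ∀ z1 : ℕ, (N : ℝ) ^ θ ≤ z1 + 1 →
      ∀ c : (Fin f → ℕ) → ℕ → ℂ, (∀ s h, ‖c s h‖ ≤ 1) →
      (∀ s h, ¬ (⌊C * Real.log N⌋₊ < h ∧ h ≤ ⌊C * Real.log N⌋₊ + B) → c s h = 0) →
      ∑ s ∈ Tf f (2 * ⌊C * Real.log N⌋₊ + B), ∑ m ∈ Icc 1 N, RR s z1 m *
        ‖∑ h ∈ Icc 1 (2 * ⌊C * Real.log N⌋₊ + B), c s h * lz ((m + h : ℕ) : ℤ)‖ ≤ ε' * (B * N) := by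
    intro f
    by_cases hf : f ∈ range K
    · obtain ⟨Nf, h⟩ := hBf f B (hBle f hf)
      exact ⟨Nf, fun _ => h⟩
    · exact ⟨0, fun h => absurd h hf⟩
  choose Nf hNf using hex
  have hlog := Pool.Agent.E8helper16.SL.log_pow_le (8 * (C + 1) / ε + (C + 1)) 1 1 one_pos
  obtain ⟨N₁, hN₁⟩ := eventually_atTop.1 hlog
  obtain ⟨N₃, hN₃⟩ := eventually_atTop.1 (log_tendsto.eventually_ge_atTop ((B : ℝ) + 2))
  refine ⟨ε / (8 * B), by positivity, N₁ + N₂ + N₃ + (∑ f ∈ range K, Nf f) + 1, fun N hN χ Φ ω Ψ hΦ hω hΨ hTV => ?_⟩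
  have g1 := hN₁ N (by omega)
  have g2 := hN₃ N (by omega)
  rw [pow_one, Real.rpow_one] at g1
  have hN0 : (0 : ℝ) < N := by exact_mod_cast (by omega : 0 < N)
  have hl0 : 0 < Real.log N := by linarith
  have hCl : 0 ≤ C * Real.log N := by positivity
  have hL1 : (⌊C * Real.log N⌋₊ : ℝ) ≤ C * Real.log N := Nat.floor_le hCl
  have hL2 : C * Real.log N < (⌊C * Real.log N⌋₊ : ℝ) + 1 := Nat.lt_floor_add_one _
  have hCll : Real.log N ≤ C * Real.log N := le_mul_of_one_le_left hl0.le hC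
  have hR1 : ((2 * ⌊C * Real.log N⌋₊ + B : ℕ) : ℝ) ≤ (2 * C + 1) * Real.log N := by
    push_cast
    have : (2 * C + 1) * Real.log N = 2 * (C * Real.log N) + Real.log N := by ring
    rw [this]
    linarith
  have hR2 : Real.log N ≤ (2 * C + 1) * ((2 * ⌊C * Real.log N⌋₊ + B : ℕ) : ℝ) := by
    have h1 : Real.log N ≤ ((2 * ⌊C * Real.log N⌋₊ + B : ℕ) : ℝ) := by
      push_cast
      linarith
    refine h1.trans ?_
    exact le_mul_of_one_le_left (Nat.cast_nonneg _) (by linarith)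
  have hsum : (⌊C * Real.log N⌋₊ : ℝ) + B ≤ (C + 1) * Real.log N := by
    have : (C + 1) * Real.log N = C * Real.log N + Real.log N := by ring
    rw [this]
    linarith
  have hLB : (⌊C * Real.log N⌋₊ : ℝ) + B ≤ ε / 8 * N := by
    refine hsum.trans ?_
    have h6 : 8 * (C + 1) / ε * Real.log N ≤ N := by
      refine le_trans ?_ g1
      apply mul_le_mul_of_nonneg_right _ hl0.le
      linarith
    have h7 := mul_le_mul_of_nonneg_left h6 (by positivity : (0 : ℝ) ≤ ε / 8)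
    refine le_trans (le_of_eq ?_) h7
    field_simp
  have hLBN : ⌊C * Real.log N⌋₊ + B ≤ N := by
    have h6 : (C + 1) * Real.log N ≤ N := by
      refine le_trans ?_ g1
      apply mul_le_mul_of_nonneg_right _ hl0.le
      have : 0 ≤ 8 * (C + 1) / ε := by positivity
      linarith
    have h7 : (⌊C * Real.log N⌋₊ : ℝ) + B ≤ N := hsum.trans h6
    exact_mod_cast h7
  have hz : (N : ℝ) ^ θ ≤ (⌊(N : ℝ) ^ θ⌋₊ : ℝ) + 1 := (Nat.lt_floor_add_one _).le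
  have hE : ∀ n : ℕ, ‖ω ^ n‖ ≤ 1 := fun n => by
    rw [norm_pow]
    exact pow_le_one₀ (norm_nonneg _) hω
  have hX : ∀ f < K, ∀ e : (Fin f → Fin a) × Fin q, ∑ s ∈ Tf f (2 * ⌊C * Real.log N⌋₊ + B), ∑ m ∈ Icc 1 N,
      RR s ⌊(N : ℝ) ^ θ⌋₊ m * ‖∑ h ∈ Icc 1 (2 * ⌊C * Real.log N⌋₊ + B),
        ccE q ⌊C * Real.log N⌋₊ B Φ (fun n => ω ^ n) e s h * lz ((m + h : ℕ) : ℤ)‖ ≤ ε' * (B * N) := by
    intro f hf e
    have hle : Nf f ≤ ∑ f ∈ range K, Nf f := single_le_sum (fun _ _ => Nat.zero_le _) (mem_range.2 hf)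
    refine hNf f (mem_range.2 hf) N (by omega) _ hz _ (ccE_norm q _ _ Φ hΦ _ hE e) ?_
    intro s h hh
    unfold ccE cc
    rw [if_neg hh, zero_mul]
  have hY := hRR N (by omega) _ hR1 hR2 _ hz
  have key := main_bdE hq hK1 hLBN χ Φ hΦ ω hω Ψ hΨ _ hX _ hY
  rw [← hEqd] at key
  obtain ⟨x, hx⟩ : ∃ x, x = ‖∑ n ∈ Icc 1 N, (Wf q ⌊C * Real.log N⌋₊ ⌊(N : ℝ) ^ θ⌋₊ χ Φ n * ω ^ n) * Ψ n‖ := ⟨_, rfl⟩
  rw [← hx] at key ⊢
  obtain ⟨TV, hTVd⟩ : ∃ TV, TV = ∑ n ∈ Icc 1 N, ‖Ψ (n + 1) - Ψ n‖ := ⟨_, rfl⟩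
  rw [← hTVd] at key hTV
  have hB0 : (0 : ℝ) < B := by linarith
  have hK0 : (0 : ℝ) < K := by exact_mod_cast hK1
  have a1 : (B : ℝ) * TV ≤ ε / 8 * N := by
    have := mul_le_mul_of_nonneg_left hTV hB0.le
    refine this.trans (le_of_eq ?_)
    field_simp
  have a2 : Eq * (ε' * (B * N)) ≤ B * (ε / 8 * N) := by
    have b2 : Eq * (ε' * (B * N)) ≤ (Eq + 1) * (ε' * (B * N)) := mul_le_mul_of_nonneg_right (by linarith) (by positivity)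
    refine b2.trans (le_of_eq ?_)
    rw [hε'd]
    field_simp
  have a3 : (B : ℝ) * (C6 * N) / K ≤ B * (ε / 8 * N) := by
    rw [div_le_iff₀ hK0]
    have := mul_le_mul_of_nonneg_left hKC (by positivity : (0 : ℝ) ≤ B * N / 8)
    calc (B : ℝ) * (C6 * N) = B * N / 8 * (8 * C6) := by ring
      _ ≤ B * N / 8 * (ε * K) := this
      _ = _ := by ring
  have a4 : (B : ℝ) * ((⌊C * Real.log N⌋₊ : ℝ) + B) ≤ B * (ε / 8 * N) := mul_le_mul_of_nonneg_left hLB hB0.le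
  have a5 : (B : ℝ) * (B * TV) ≤ B * (ε / 8 * N) := mul_le_mul_of_nonneg_left a1 hB0.le
  have a6 : (B : ℝ) * x ≤ B * (ε * N) := by
    have : 0 ≤ (B : ℝ) * (ε / 8 * N) := by positivity
    have e : (B : ℝ) * (ε * N) = 8 * (B * (ε / 8 * N)) := by ring
    linarith
  exact le_of_mul_le_mul_left a6 hB0

end Pool.Agent.H526.FD
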